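import Pool.Agent.Helper961.Aub.Torus

/-!
Definitions for MP_7d4c8f_an (quotient Aubry set): `C^∞` time-periodic Tonelli Lagrangians on the flat
torus `M = (ℝ/Pℤ)^ι`, Mather's alpha function, the Peierls barrier, the Aubry set.
-/

set_option autoImplicit false

open Set Filter Topology MeasureTheory
open scoped ContDiff

namespace Pool.Agent.QA

noncomputable section

/-- The flat torus `M = (ℝ/Pℤ)^ι`. -/
abbrev Torus (P : ℝ) (ι : Type) : Type := ι → AddCircle P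

/-- The space `TM × 𝕋`, with `TM = M × ℝ^ι` and `𝕋 = ℝ/ℤ`. -/
abbrev Phase (P : ℝ) (ι : Type) : Type := Torus P ι × EuclideanSpace ℝ ι × AddCircle (1 : ℝ)

variable {ι : Type} [Fintype ι]

/-- The covering map `ℝ^ι → M`. -/
def prj (P : ℝ) (x : EuclideanSpace ℝ ι) : Torus P ι := fun i => (x i : AddCircle P)

/-- The point of `TM × 𝕋` with position `x mod (Pℤ)^ι`, velocity `v` and time `t mod ℤ`. -/
def cov (P : ℝ) (x v : EuclideanSpace ℝ ι) (t : ℝ) : Phase P ι :=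
  (prj P x, v, (t : AddCircle (1 : ℝ)))

/-- `γ : ℝ → ℝ^ι` (the lift of a curve in `M`) is a solution on all of `ℝ` of the
Euler-Lagrange equation `d/dt (∂L/∂v) = ∂L/∂x`. -/
structure IsExtremal (P : ℝ) (L : Phase P ι → ℝ) (γ : ℝ → EuclideanSpace ℝ ι) : Prop where
  contDiff : ContDiff ℝ 1 γ
  euler_lagrange : ∀ t : ℝ,
    HasDerivAt (fun s => fderiv ℝ (fun u => L (cov P (γ s) u s)) (deriv γ s))
      (fderiv ℝ (fun y => L (cov P y (deriv γ t) t)) (γ t)) t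

/-- `C^∞` time-periodic Tonelli Lagrangians on `M`: fibre Hessian positive definite,
superlinear in the velocity, complete Euler-Lagrange flow. -/
structure IsTonelli (P : ℝ) (L : Phase P ι → ℝ) : Prop where
  contDiff : ContDiff ℝ ∞
    (fun p : EuclideanSpace ℝ ι × EuclideanSpace ℝ ι × ℝ => L (cov P p.1 p.2.1 p.2.2))
  hessian_pos : ∀ (x v : EuclideanSpace ℝ ι) (t : ℝ) (w : EuclideanSpace ℝ ι), w ≠ 0 →
    0 < fderiv ℝ (fun u => fderiv ℝ (fun u' => L (cov P x u' t)) u) v w w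
  superlinear : ∀ A : ℝ, ∃ B : ℝ, ∀ (x v : EuclideanSpace ℝ ι) (t : ℝ),
    A * ‖v‖ - B ≤ L (cov P x v t)
  complete : ∀ (x v : EuclideanSpace ℝ ι) (t : ℝ),
    ∃ γ : ℝ → EuclideanSpace ℝ ι, IsExtremal P L γ ∧ γ t = x ∧ deriv γ t = v

/-- `Φ` is the Euler-Lagrange flow of `L` on `TM × 𝕋`. -/
def IsELFlow (P : ℝ) (L : Phase P ι → ℝ) (Φ : ℝ → Phase P ι → Phase P ι) : Prop :=
  ∀ γ : ℝ → EuclideanSpace ℝ ι, IsExtremal P L γ → ∀ t s : ℝ,
    Φ s (cov P (γ t) (deriv γ t) t) = cov P (γ (t + s)) (deriv γ (t + s)) (t + s)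

/-- Borel probability measures on `TM × 𝕋` invariant under the flow `Φ`. -/
structure IsInv (P : ℝ) (Φ : ℝ → Phase P ι → Phase P ι) (μ : Measure (Phase P ι)) : Prop where
  prob : IsProbabilityMeasure μ
  invariant : ∀ s : ℝ, MeasurePreserving (Φ s) μ μ

/-- `L_c = L - η_c + a`, where `η_c = Σ c_i dx_i` represents the class `c ∈ H^1(M, ℝ) = ℝ^ι`. -/
def Lc (P : ℝ) (L : Phase P ι → ℝ) (c : ι → ℝ) (a : ℝ) (p : Phase P ι) : ℝ :=
  L p - ∑ i, c i * p.2.1 i + a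

/-- `a = α(c)`: with this constant the infimum of `∫ L_c dμ` over the invariant probability
measures of the Euler-Lagrange flow is `0`. -/
def IsAlpha (P : ℝ) (L : Phase P ι → ℝ) (Φ : ℝ → Phase P ι → Phase P ι) (c : ι → ℝ) (a : ℝ) :
    Prop :=
  IsGLB {r : ℝ | ∃ μ : Measure (Phase P ι), IsInv P Φ μ ∧ Integrable (Lc P L c a) μ ∧
    r = ∫ p, Lc P L c a p ∂μ} 0

/-- `γ` is absolutely continuous on `[0, T]` with derivative `v`:
`γ(s) = γ(0) + ∫_0^s v` with `v` integrable. -/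
def IsCurve (γ v : ℝ → EuclideanSpace ℝ ι) (T : ℝ) : Prop :=
  IntegrableOn v (Icc 0 T) ∧ ∀ s ∈ Icc (0 : ℝ) T, γ s = γ 0 + ∫ u in (0 : ℝ)..s, v u

/-- `h^n_c(x, y)`: infimum of `∫_0^n L_c(γ, γ', t) dt` over the absolutely continuous curves
`γ : [0, n] → M` from `x` to `y` (given by lifts; curves of infinite action are left out). -/
def hn (P : ℝ) (L : Phase P ι → ℝ) (c : ι → ℝ) (a : ℝ) (n : ℕ) (x y : Torus P ι) : ℝ :=
  sInf {A : ℝ | ∃ γ v : ℝ → EuclideanSpace ℝ ι, IsCurve γ v n ∧ prj P (γ 0) = x ∧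
    prj P (γ n) = y ∧ IntegrableOn (fun t => Lc P L c a (cov P (γ t) (v t) t)) (Icc 0 (n : ℝ)) ∧
    A = ∫ t in (0 : ℝ)..n, Lc P L c a (cov P (γ t) (v t) t)}

/-- The Peierls barrier `liminf_{n → ∞} h^n_c(x, y)`. -/
def barrier (P : ℝ) (L : Phase P ι → ℝ) (c : ι → ℝ) (a : ℝ) (x y : Torus P ι) : EReal :=
  liminf (fun n : ℕ => ((hn P L c a n x y : ℝ) : EReal)) atTop

/-- The (projected) Aubry set `{x : liminf h^n_c(x, x) = 0}`. -/
def AubrySet (P : ℝ) (L : Phase P ι → ℝ) (c : ι → ℝ) (a : ℝ) : Set (Torus P ι) :=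
  {x | barrier P L c a x x = 0}

end

end Pool.Agent.QA
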