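import Pool.Agent.Helper961.Aub.Phys
import Pool.Agent.Helper981.QA.Defs

/-!
Auxiliary definitions for the proof (MP_7d4c8f_an).
-/

set_option autoImplicit false

open Set Filter Topology MeasureTheory
open scoped ContDiff

namespace Pool.Agent.QA

open Pool.Agent.Aub (lat PerField IsFlow action hT Cell zc hd run refill Dle Val base rl Vz MM mm
  Realz YY Clamp Rho LL Jx EE mkp mkz pt Ty UU)

noncomputable section

variable {ι : Type} [Fintype ι]

/-- a representative of a point of the torus -/
def lft (P : ℝ) [Fact (0 < P)] (q : Torus P ι) : EuclideanSpace ℝ ι :=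
  WithLp.toLp 2 (fun i => ((AddCircle.equivIco P 0 (q i) : Ico (0 : ℝ) (0 + P)) : ℝ))

/-- the Lagrangian `½ ‖v - F(x)‖²` on `TM × 𝕋` -/
def LF (P : ℝ) [Fact (0 < P)] (F : EuclideanSpace ℝ ι → EuclideanSpace ℝ ι)
    (p : Phase P ι) : ℝ := ‖p.2.1 - F (lft P p.1)‖ ^ 2 / 2

/-- barrier over integer times, with values in `[0, ∞]`, for points of the universal cover -/
def bN (P : ℝ) (F : EuclideanSpace ℝ ι → EuclideanSpace ℝ ι) (x y : EuclideanSpace ℝ ι) :
    ENNReal := liminf (fun n : ℕ => hT P F n x y) atTop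

/-- truncated value of a configuration -/
def vN : ℕ → List Cell → ℝ
  | 0, _ => 2
  | (N + 1), l => (Vz (fun k => ((hd l).D k : ℤ)) + vN N l.tail) / MM

/-- value of a configuration -/
def val : List Cell → ℝ
  | [] => 0
  | a :: tl => (Vz (fun k => (a.D k : ℤ)) + val tl) / MM

/-- configurations without carries, all bits zero -/
def Good (l : List Cell) : Prop :=
  ∀ a ∈ l, a.b = false ∧ a.c = false ∧ ∀ k, a.D k < mm

instance : Fact (0 < LL) := ⟨by unfold LL; positivity⟩

end

end Pool.Agent.QA
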