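import Pool.Agent.Helper981.QA.Base
import Pool.Agent.Helper981.Flow

/-!
The Euler-Lagrange system of `½‖v-F(x)‖²`: definitions.
-/

set_option autoImplicit false

open Set Filter Topology MeasureTheory
open scoped ContDiff

namespace Pool.Agent.QA

open Pool.Agent.Aub (lat PerField IsFlow action hT Cell zc hd run refill Dle Val base rl Vz MM mm
  Realz YY Clamp Rho LL Jx EE mkp mkz pt Ty UU)

noncomputable section

variable {ι : Type} [Fintype ι]

/-- the Euler-Lagrange vector field in the coordinates `(x, w)`, `w = v - F(x)` -/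
def GF (F : EuclideanSpace ℝ ι → EuclideanSpace ℝ ι)
    (z : EuclideanSpace ℝ ι × EuclideanSpace ℝ ι) : EuclideanSpace ℝ ι × EuclideanSpace ℝ ι :=
  (F z.1 + z.2, -(ContinuousLinearMap.adjoint (fderiv ℝ F z.1) z.2))

/-- `Ψ` is the Euler-Lagrange flow in the coordinates `(x, w)` -/
structure ELF (P : ℝ) (F : EuclideanSpace ℝ ι → EuclideanSpace ℝ ι)
    (φ : ℝ → EuclideanSpace ℝ ι → EuclideanSpace ℝ ι)
    (Ψ : ℝ → EuclideanSpace ℝ ι × EuclideanSpace ℝ ι →
      EuclideanSpace ℝ ι × EuclideanSpace ℝ ι) : Prop where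
  cont : ∀ s, Continuous (Ψ s)
  zero : ∀ z, Ψ 0 z = z
  deriv : ∀ z t, HasDerivAt (fun s => Ψ s z) (GF F (Ψ t z)) t
  uniq : ∀ α : ℝ → EuclideanSpace ℝ ι × EuclideanSpace ℝ ι,
    (∀ t, HasDerivAt α (GF F (α t)) t) → ∀ t s, α (t + s) = Ψ s (α t)
  lat : ∀ s x w (k : ι → ℤ), Ψ s (x + lat P k, w) = ((Ψ s (x, w)).1 + lat P k, (Ψ s (x, w)).2)
  zerosec : ∀ s x, Ψ s (x, 0) = (φ s x, 0)

end

end Pool.Agent.QA
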