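import Mathlib
import Pool.Agent.Helper961.Aub.Phys
import Pool.Agent.Helper981.QA.ELDefs

/-!
MP_7d4c8f_an, torus basics: prj_lft, prj_eq_iff, prj_continuous, lft_measurable 
-/

set_option autoImplicit false

open Set Filter Topology MeasureTheory
open scoped ContDiff

namespace Pool.Agent.QA

open Pool.Agent.Aub (lat PerField IsFlow action hT Cell zc hd run refill Dle Val base rl Vz MM mm
  Realz YY Clamp Rho LL Jx EE mkp mkz pt Ty UU)

theorem prj_lft {ι : Type} [Fintype ι] (P : ℝ) [Fact (0 < P)] (q : Torus P ι) :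
    prj P (lft P q) = q := by
  funext i
  exact (AddCircle.equivIco P 0).symm_apply_apply (q i)

theorem prj_eq_iff {ι : Type} [Fintype ι] (P : ℝ) (x y : EuclideanSpace ℝ ι) :
    prj P x = prj P y ↔ ∃ k : ι → ℤ, x = y + lat P k := by
  constructor
  · intro h
    have h1 : ∀ i, ∃ n : ℤ, x i = y i + P * n := by
      intro i
      have h2 : ((x i : ℝ) : AddCircle P) = ((y i : ℝ) : AddCircle P) := congrFun h i
      have h3 : (((x i - y i : ℝ)) : AddCircle P) = 0 := by
        rw [AddCircle.coe_sub, h2, sub_self]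
      rw [AddCircle.coe_eq_zero_iff] at h3
      obtain ⟨n, hn⟩ := h3
      refine ⟨n, ?_⟩
      rw [zsmul_eq_mul] at hn
      linarith
    choose k hk using h1
    refine ⟨k, ?_⟩
    ext i
    exact hk i
  · rintro ⟨k, rfl⟩
    funext i
    show (((y + lat P k) i : ℝ) : AddCircle P) = ((y i : ℝ) : AddCircle P)
    have h1 : (y + lat P k) i = y i + k i • P := by
      show y i + P * (k i : ℝ) = _
      rw [zsmul_eq_mul]
      ring
    rw [h1, AddCircle.coe_add]
    have h2 : ((k i • P : ℝ) : AddCircle P) = 0 := by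
      rw [AddCircle.coe_eq_zero_iff]
      exact ⟨k i, rfl⟩
    rw [h2, add_zero]

theorem prj_continuous {ι : Type} [Fintype ι] (P : ℝ) :
    Continuous (prj P : EuclideanSpace ℝ ι → Torus P ι) := by
  refine continuous_pi (fun i => ?_)
  exact (AddCircle.continuous_mk' P).comp (by fun_prop : Continuous fun x : EuclideanSpace ℝ ι => x i)

theorem lft_measurable {ι : Type} [Fintype ι] (P : ℝ) [Fact (0 < P)] :
    Measurable (lft P : Torus P ι → EuclideanSpace ℝ ι) := by
  have h1 : Measurable (fun q : Torus P ι =>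
      (fun i => ((AddCircle.equivIco P 0 (q i) : Ico (0 : ℝ) (0 + P)) : ℝ) : ι → ℝ)) := by
    refine measurable_pi_lambda _ (fun i => ?_)
    exact (measurable_subtype_coe.comp (AddCircle.measurableEquivIco P 0).measurable).comp
      (measurable_pi_apply i)
  exact (EuclideanSpace.volume_preserving_symm_measurableEquiv_toLp ι).symm.measurable.comp h1

end Pool.Agent.QA
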