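import Mathlib
import Pool.Agent.Helper961.Aub.Phys
import Pool.Agent.Helper981.QA.ELDefs
import Pool.Agent.Helper981.QA.P01

/-!
MP_7d4c8f_an, the Lagrangian: LF_cov, LF_smooth, LF_hess, LF_super
-/

set_option autoImplicit false

open Set Filter Topology MeasureTheory
open scoped ContDiff

namespace Pool.Agent.QA

open Pool.Agent.Aub (lat PerField IsFlow action hT Cell zc hd run refill Dle Val base rl Vz MM mm
  Realz YY Clamp Rho LL Jx EE mkp mkz pt Ty UU)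

theorem P02_rep {ι : Type} [Fintype ι] (P : ℝ) [Fact (0 < P)]
    {F : EuclideanSpace ℝ ι → EuclideanSpace ℝ ι} (hF : PerField P F)
    (x : EuclideanSpace ℝ ι) : F (lft P (prj P x)) = F x := by
  obtain ⟨k, hk⟩ := (prj_eq_iff P (lft P (prj P x)) x).1 (prj_lft P (prj P x))
  rw [hk, hF x k]

theorem LF_cov {ι : Type} [Fintype ι] (P : ℝ) [Fact (0 < P)]
    {F : EuclideanSpace ℝ ι → EuclideanSpace ℝ ι} (hF : PerField P F)
    (x v : EuclideanSpace ℝ ι) (t : ℝ) : LF P F (cov P x v t) = ‖v - F x‖ ^ 2 / 2 := by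
  show ‖v - F (lft P (prj P x))‖ ^ 2 / 2 = ‖v - F x‖ ^ 2 / 2
  rw [P02_rep P hF x]

theorem LF_smooth {ι : Type} [Fintype ι] (P : ℝ) [Fact (0 < P)]
    {F : EuclideanSpace ℝ ι → EuclideanSpace ℝ ι} (hs : ContDiff ℝ ∞ F) (hF : PerField P F) :
    ContDiff ℝ ∞ (fun p : EuclideanSpace ℝ ι × EuclideanSpace ℝ ι × ℝ =>
      LF P F (cov P p.1 p.2.1 p.2.2)) := by
  have h : (fun p : EuclideanSpace ℝ ι × EuclideanSpace ℝ ι × ℝ =>
      LF P F (cov P p.1 p.2.1 p.2.2)) = fun p => ‖p.2.1 - F p.1‖ ^ 2 / 2 := by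
    funext p
    exact LF_cov P hF p.1 p.2.1 p.2.2
  rw [h]
  have h1 : ContDiff ℝ ∞ (fun p : EuclideanSpace ℝ ι × EuclideanSpace ℝ ι × ℝ =>
      p.2.1 - F p.1) := (contDiff_fst.comp contDiff_snd).sub (hs.comp contDiff_fst)
  exact (h1.norm_sq ℝ).div_const 2

theorem P02_fderiv {ι : Type} [Fintype ι] (P : ℝ) [Fact (0 < P)]
    {F : EuclideanSpace ℝ ι → EuclideanSpace ℝ ι} (hF : PerField P F)
    (x : EuclideanSpace ℝ ι) (t : ℝ) (u : EuclideanSpace ℝ ι) :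
    fderiv ℝ (fun u' => LF P F (cov P x u' t)) u = innerSL ℝ (u - F x) := by
  have h : (fun u' => LF P F (cov P x u' t)) = fun u' => (1 / 2 : ℝ) * ‖u' - F x‖ ^ 2 := by
    funext u'
    rw [LF_cov P hF x u' t]
    ring
  rw [h]
  have h1 : HasFDerivAt (fun u' : EuclideanSpace ℝ ι => u' - F x)
      (ContinuousLinearMap.id ℝ (EuclideanSpace ℝ ι)) u := (hasFDerivAt_id u).sub_const (F x)
  have h2 := (h1.norm_sq).const_mul (1 / 2 : ℝ)
  rw [h2.fderiv]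
  ext w
  simp [two_smul]
  try ring

theorem LF_hess {ι : Type} [Fintype ι] (P : ℝ) [Fact (0 < P)]
    {F : EuclideanSpace ℝ ι → EuclideanSpace ℝ ι} (hF : PerField P F)
    (x v : EuclideanSpace ℝ ι) (t : ℝ) (w : EuclideanSpace ℝ ι) (hw : w ≠ 0) :
    0 < fderiv ℝ (fun u => fderiv ℝ (fun u' => LF P F (cov P x u' t)) u) v w w := by
  have h : (fun u => fderiv ℝ (fun u' => LF P F (cov P x u' t)) u) =
      fun u => innerSL ℝ (u - F x) := by
    funext u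
    exact P02_fderiv P hF x t u
  rw [h]
  have h1 : HasFDerivAt (fun u : EuclideanSpace ℝ ι => u - F x)
      (ContinuousLinearMap.id ℝ (EuclideanSpace ℝ ι)) v := (hasFDerivAt_id v).sub_const (F x)
  have h2 : HasFDerivAt (fun u : EuclideanSpace ℝ ι => innerSL ℝ (u - F x))
      ((innerSL ℝ).comp (ContinuousLinearMap.id ℝ (EuclideanSpace ℝ ι))) v :=
    ((innerSL ℝ).hasFDerivAt (x := v - F x)).comp v h1
  rw [h2.fderiv]
  show 0 < innerSL ℝ w w
  rw [innerSL_apply_apply, real_inner_self_eq_norm_sq]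
  have := norm_pos_iff.2 hw
  positivity

theorem P02_bound {ι : Type} [Fintype ι] (P : ℝ) [Fact (0 < P)]
    {F : EuclideanSpace ℝ ι → EuclideanSpace ℝ ι} (hs : Continuous F) (hF : PerField P F) :
    ∃ B0 : ℝ, 0 ≤ B0 ∧ ∀ x, ‖F x‖ ≤ B0 := by
  have hcomp : IsCompact (Set.pi Set.univ (fun _ : ι => Set.Icc (0 : ℝ) P)) :=
    isCompact_univ_pi (fun _ => isCompact_Icc)
  have hcont : ContinuousOn (fun y : ι → ℝ => F (WithLp.toLp 2 y))
      (Set.pi Set.univ (fun _ : ι => Set.Icc (0 : ℝ) P)) :=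
    (hs.comp (PiLp.continuous_toLp 2 _)).continuousOn
  obtain ⟨C, hC⟩ := hcomp.exists_bound_of_continuousOn hcont
  have hall : ∀ x, ‖F x‖ ≤ C := by
    intro x
    rw [← P02_rep P hF x]
    apply hC
    intro i _
    have h1 := (AddCircle.equivIco P 0 (prj P x i)).2
    have h2 : ((AddCircle.equivIco P 0 (prj P x i) : Ico (0 : ℝ) (0 + P)) : ℝ) < 0 + P := h1.2
    refine ⟨h1.1, ?_⟩
    exact le_trans h2.le (zero_add P).le
  exact ⟨C, le_trans (norm_nonneg _) (hall 0), hall⟩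

theorem LF_super {ι : Type} [Fintype ι] (P : ℝ) [Fact (0 < P)]
    {F : EuclideanSpace ℝ ι → EuclideanSpace ℝ ι} (hs : ContDiff ℝ ∞ F) (hF : PerField P F) :
    ∀ A : ℝ, ∃ B : ℝ, ∀ (x v : EuclideanSpace ℝ ι) (t : ℝ),
      A * ‖v‖ - B ≤ LF P F (cov P x v t) := by
  obtain ⟨B0, hB0, hB⟩ := P02_bound P hs.continuous hF
  intro A
  refine ⟨A ^ 2 / 2 + |A| * B0, ?_⟩
  intro x v t
  rw [LF_cov P hF x v t]
  obtain ⟨s, hs'⟩ : ∃ s, s = ‖v - F x‖ := ⟨_, rfl⟩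
  rw [← hs']
  have h1 : ‖v‖ ≤ s + B0 := by
    calc ‖v‖ = ‖(v - F x) + F x‖ := by rw [sub_add_cancel]
      _ ≤ ‖v - F x‖ + ‖F x‖ := norm_add_le _ _
      _ ≤ s + B0 := by rw [← hs']; linarith [hB x]
  have h2 : A * ‖v‖ ≤ |A| * (s + B0) :=
    mul_le_mul (le_abs_self A) h1 (norm_nonneg _) (abs_nonneg _)
  have h3 : A ^ 2 = |A| ^ 2 := (sq_abs A).symm
  nlinarith [sq_nonneg (|A| - s)]

end Pool.Agent.QA
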