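import Mathlib
import Pool.Agent.Helper961.Aub.Phys
import Pool.Agent.Helper981.QA.ELDefs

/-!
MP_7d4c8f_an, the Euler-Lagrange flow in coordinates (x,w): ELF_exists
-/

set_option autoImplicit false

open Set Filter Topology MeasureTheory
open scoped ContDiff

namespace Pool.Agent.QA

open Pool.Agent.Aub (lat PerField IsFlow action hT Cell zc hd run refill Dle Val base rl Vz MM mm
  Realz YY Clamp Rho LL Jx EE mkp mkz pt Ty UU)

theorem P03_bdd {ι : Type} [Fintype ι] {W : Type} [NormedAddCommGroup W] (P : ℝ) (hP : 0 < P)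
    (g : EuclideanSpace ℝ ι → W) (hg : Continuous g) (hper : ∀ x (k : ι → ℤ), g (x + lat P k) = g x) :
    ∃ C : ℝ, 0 ≤ C ∧ ∀ x, ‖g x‖ ≤ C := by
  have hK : IsCompact ((WithLp.toLp 2 : (ι → ℝ) → EuclideanSpace ℝ ι) ''
      (Set.pi univ fun _ => Icc (0 : ℝ) P)) :=
    (isCompact_univ_pi fun _ => isCompact_Icc).image (PiLp.continuous_toLp 2 _)
  obtain ⟨C, hC⟩ := hK.exists_bound_of_continuousOn hg.continuousOn
  have hx0 : ∀ x, ‖g x‖ ≤ C := by
    intro x
    have h1 := hC (x + lat P (fun i => -⌊x i / P⌋)) ⟨fun i => x i + P * ((-⌊x i / P⌋ : ℤ) : ℝ), by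
      intro i _
      have h2 := Int.floor_le (x i / P)
      have h3 := Int.lt_floor_add_one (x i / P)
      rw [le_div_iff₀ hP] at h2
      rw [div_lt_iff₀ hP] at h3
      constructor
      · push_cast
        linarith
      · push_cast
        linarith, by
      ext i
      simp [lat]⟩
    rwa [hper] at h1
  exact ⟨C, (norm_nonneg _).trans (hx0 0), hx0⟩

theorem ELF_exists {ι : Type} [Fintype ι] (P : ℝ) [Fact (0 < P)]
    {F : EuclideanSpace ℝ ι → EuclideanSpace ℝ ι} (hs : ContDiff ℝ ∞ F) (hF : PerField P F)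
    {φ : ℝ → EuclideanSpace ℝ ι → EuclideanSpace ℝ ι} (hφ : IsFlow F φ) :
    ∃ Ψ, ELF P F φ Ψ := by
  have hP : 0 < P := Fact.out
  have hfper : ∀ x (k : ι → ℤ), fderiv ℝ F (x + lat P k) = fderiv ℝ F x := by
    intro x k
    rw [← fderiv_comp_add_right]
    congr 1
    funext y
    exact hF y k
  obtain ⟨C, hC0, hC⟩ := P03_bdd P hP F hs.continuous hF
  obtain ⟨K, hK0, hK⟩ := P03_bdd P hP (fderiv ℝ F) (hs.continuous_fderiv (by simp)) hfper
  let adjL : (EuclideanSpace ℝ ι →L[ℝ] EuclideanSpace ℝ ι) →ₗ[ℝ]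
      (EuclideanSpace ℝ ι →L[ℝ] EuclideanSpace ℝ ι) :=
    { toFun := fun A => ContinuousLinearMap.adjoint A
      map_add' := fun A B => map_add _ A B
      map_smul' := fun c A => by simp }
  have hadj : ∀ A, LinearMap.toContinuousLinearMap adjL A = ContinuousLinearMap.adjoint A :=
    fun A => rfl
  have hsm : ContDiff ℝ 1 (GF F) := by
    have h1 : ContDiff ℝ 1 (fun z : EuclideanSpace ℝ ι × EuclideanSpace ℝ ι => F z.1 + z.2) :=
      ((hs.of_le (by exact_mod_cast le_top)).comp contDiff_fst).add contDiff_snd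
    have h2 : ContDiff ℝ 1 (fun z : EuclideanSpace ℝ ι × EuclideanSpace ℝ ι => fderiv ℝ F z.1) :=
      ((contDiff_infty_iff_fderiv.1 hs).2.of_le (by exact_mod_cast le_top)).comp contDiff_fst
    have h3 : ContDiff ℝ 1 (fun z : EuclideanSpace ℝ ι × EuclideanSpace ℝ ι =>
        ContinuousLinearMap.adjoint (fderiv ℝ F z.1)) :=
      (LinearMap.toContinuousLinearMap adjL).contDiff.comp h2
    exact h1.prodMk (h3.clm_apply contDiff_snd).neg
  have hbd : ∀ z, ‖GF F z‖ ≤ (C + K + 1) * (1 + ‖z‖) := by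
    intro z
    have hz1 : ‖z.2‖ ≤ ‖z‖ := norm_snd_le z
    have hz0 : 0 ≤ ‖z‖ := norm_nonneg z
    unfold GF
    rw [Prod.norm_def]
    apply max_le
    · calc ‖F z.1 + z.2‖ ≤ ‖F z.1‖ + ‖z.2‖ := norm_add_le _ _
        _ ≤ C + ‖z‖ := add_le_add (hC _) hz1
        _ ≤ (C + K + 1) * (1 + ‖z‖) := by nlinarith [mul_nonneg hC0 hz0, mul_nonneg hK0 hz0]
    · simp only [norm_neg]
      calc ‖ContinuousLinearMap.adjoint (fderiv ℝ F z.1) z.2‖ ≤
            ‖ContinuousLinearMap.adjoint (fderiv ℝ F z.1)‖ * ‖z.2‖ :=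
            ContinuousLinearMap.le_opNorm _ _
        _ = ‖fderiv ℝ F z.1‖ * ‖z.2‖ := by rw [LinearIsometryEquiv.norm_map]
        _ ≤ K * ‖z‖ := mul_le_mul (hK _) hz1 (norm_nonneg _) hK0
        _ ≤ (C + K + 1) * (1 + ‖z‖) := by nlinarith [mul_nonneg hC0 hz0, mul_nonneg hK0 hz0]
  obtain ⟨Ψ, h0, h1, h2, h3⟩ := Pool.Agent.Helper981.exists_flow hsm (A := C + K + 1)
    (by positivity) hbd
  refine ⟨Ψ, h2, h0, h1, h3, ?_, ?_⟩
  · intro s x w k
    have h4 := h3 (fun s => Ψ s (x, w) + (lat P k, 0)) (fun t => by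
      have h5 := (h1 (x, w) t).add_const ((lat P k, 0) : EuclideanSpace ℝ ι × EuclideanSpace ℝ ι)
      have h6 : GF F (Ψ t (x, w) + (lat P k, 0)) = GF F (Ψ t (x, w)) := by
        unfold GF
        simp only [Prod.fst_add, Prod.snd_add, add_zero]
        rw [hF, hfper]
      rw [h6]
      exact h5) 0 s
    simp only [zero_add, h0] at h4
    have h7 : ((x, w) + (lat P k, 0) : EuclideanSpace ℝ ι × EuclideanSpace ℝ ι) =
        (x + lat P k, w) := by
      ext i <;> simp
    rw [h7] at h4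
    rw [← h4]
    apply Prod.ext
    · simp
    · simp
  · intro s x
    have h4 := h3 (fun s => (φ s x, 0)) (fun t => by
      have h6 : GF F (φ t x, 0) = (F (φ t x), 0) := by
        unfold GF
        simp
      rw [h6]
      exact (hφ.2 x t).prodMk (hasDerivAt_const t 0)) 0 s
    simp only [zero_add, hφ.1] at h4
    exact h4.symm

end Pool.Agent.QA
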