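import Mathlib
import Pool.Agent.Helper961.Aub.Phys
import Pool.Agent.Helper981.QA.ELDefs
import Pool.Agent.Helper981.QA.P02

/-!
MP_7d4c8f_an, extremals of ½|v-F|²: LF_extremal_iff
-/

set_option autoImplicit false

open Set Filter Topology MeasureTheory
open scoped ContDiff

namespace Pool.Agent.QA

open Pool.Agent.Aub (lat PerField IsFlow action hT Cell zc hd run refill Dle Val base rl Vz MM mm
  Realz YY Clamp Rho LL Jx EE mkp mkz pt Ty UU)

theorem P04_innerSL_iff {E : Type} [NormedAddCommGroup E] [InnerProductSpace ℝ E]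
    (w : ℝ → E) (w' : E) (t : ℝ) :
    HasDerivAt (fun s => innerSL ℝ (w s)) (innerSL ℝ w') t ↔ HasDerivAt w w' t := by
  rw [hasDerivAt_iff_isLittleO, hasDerivAt_iff_isLittleO]
  have h1 : ∀ s : ℝ, innerSL ℝ (w s) - innerSL ℝ (w t) - (s - t) • innerSL ℝ w' =
      innerSL ℝ (w s - w t - (s - t) • w') := by
    intro s
    ext x
    simp [inner_sub_left, inner_smul_left]
  simp_rw [h1]
  rw [← Asymptotics.isLittleO_norm_left]
  simp only [innerSL_apply_norm]
  rw [Asymptotics.isLittleO_norm_left]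

theorem P04_fd1 {ι : Type} [Fintype ι] (P : ℝ) [Fact (0 < P)]
    {F : EuclideanSpace ℝ ι → EuclideanSpace ℝ ι} (hF : PerField P F)
    (a v : EuclideanSpace ℝ ι) (s : ℝ) :
    fderiv ℝ (fun u => LF P F (cov P a u s)) v = innerSL ℝ (v - F a) := by
  have h1 : (fun u => LF P F (cov P a u s)) = fun u => (1 / 2 : ℝ) * ‖u - F a‖ ^ 2 := by
    funext u
    rw [LF_cov P hF]
    ring
  rw [h1]
  have h2 : HasFDerivAt (fun u : EuclideanSpace ℝ ι => u - F a)
      (ContinuousLinearMap.id ℝ (EuclideanSpace ℝ ι)) v := (hasFDerivAt_id v).sub_const _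
  have h3 := (h2.norm_sq.const_mul (1 / 2 : ℝ)).fderiv
  refine Eq.trans h3 ?_
  ext x
  simp

theorem P04_fd2 {ι : Type} [Fintype ι] (P : ℝ) [Fact (0 < P)]
    {F : EuclideanSpace ℝ ι → EuclideanSpace ℝ ι} (hs : ContDiff ℝ ∞ F) (hF : PerField P F)
    (a v : EuclideanSpace ℝ ι) (s : ℝ) :
    fderiv ℝ (fun y => LF P F (cov P y v s)) a =
      innerSL ℝ (-(ContinuousLinearMap.adjoint (fderiv ℝ F a) (v - F a))) := by
  have h1 : (fun y => LF P F (cov P y v s)) = fun y => (1 / 2 : ℝ) * ‖v - F y‖ ^ 2 := by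
    funext u
    rw [LF_cov P hF]
    ring
  rw [h1]
  have hd : HasFDerivAt F (fderiv ℝ F a) a :=
    ((hs.differentiable (by simp)) a).hasFDerivAt
  have h2 : HasFDerivAt (fun y : EuclideanSpace ℝ ι => v - F y) (-(fderiv ℝ F a)) a :=
    hd.const_sub v
  have h3 := (h2.norm_sq.const_mul (1 / 2 : ℝ)).fderiv
  refine Eq.trans h3 ?_
  ext x
  simp [ContinuousLinearMap.adjoint_inner_left]

theorem LF_extremal_iff {ι : Type} [Fintype ι] (P : ℝ) [Fact (0 < P)]
    {F : EuclideanSpace ℝ ι → EuclideanSpace ℝ ι} (hs : ContDiff ℝ ∞ F) (hF : PerField P F)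
    (γ : ℝ → EuclideanSpace ℝ ι) :
    IsExtremal P (LF P F) γ ↔ ∃ w : ℝ → EuclideanSpace ℝ ι,
      ∀ t, HasDerivAt (fun s => (γ s, w s)) (GF F (γ t, w t)) t := by
  constructor
  · rintro ⟨hc, he⟩
    refine ⟨fun s => deriv γ s - F (γ s), ?_⟩
    intro t
    have h1 := he t
    simp only [P04_fd1 P hF, P04_fd2 P hs hF] at h1
    have h2 : HasDerivAt (fun s => deriv γ s - F (γ s))
        (-(ContinuousLinearMap.adjoint (fderiv ℝ F (γ t)) (deriv γ t - F (γ t)))) t :=
      (P04_innerSL_iff _ _ t).mp h1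
    have h3 : HasDerivAt γ (deriv γ t) t := ((hc.differentiable (by simp)) t).hasDerivAt
    have h4 := h3.prodMk h2
    have h5 : GF F (γ t, deriv γ t - F (γ t)) = (deriv γ t,
        -(ContinuousLinearMap.adjoint (fderiv ℝ F (γ t)) (deriv γ t - F (γ t)))) := by
      unfold GF
      simp
    show HasDerivAt _ (GF F (γ t, deriv γ t - F (γ t))) t
    rw [h5]
    exact h4
  · rintro ⟨w, hw⟩
    have hγ : ∀ t, HasDerivAt γ (F (γ t) + w t) t := by
      intro t
      exact (ContinuousLinearMap.fst ℝ (EuclideanSpace ℝ ι)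
        (EuclideanSpace ℝ ι)).hasFDerivAt.comp_hasDerivAt t (hw t)
    have hw2 : ∀ t, HasDerivAt w
        (-(ContinuousLinearMap.adjoint (fderiv ℝ F (γ t)) (w t))) t := by
      intro t
      exact (ContinuousLinearMap.snd ℝ (EuclideanSpace ℝ ι)
        (EuclideanSpace ℝ ι)).hasFDerivAt.comp_hasDerivAt t (hw t)
    have hderiv : ∀ t, deriv γ t = F (γ t) + w t := fun t => (hγ t).deriv
    have hγc : Continuous γ := continuous_iff_continuousAt.mpr (fun t => (hγ t).continuousAt)
    have hwc : Continuous w := continuous_iff_continuousAt.mpr (fun t => (hw2 t).continuousAt)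
    constructor
    · rw [contDiff_one_iff_deriv]
      refine ⟨fun t => (hγ t).differentiableAt, ?_⟩
      have : deriv γ = fun t => F (γ t) + w t := funext hderiv
      rw [this]
      exact (hs.continuous.comp hγc).add hwc
    · intro t
      simp only [P04_fd1 P hF, P04_fd2 P hs hF]
      have h1 : ∀ s, deriv γ s - F (γ s) = w s := by
        intro s
        rw [hderiv, add_sub_cancel_left]
      simp only [h1]
      exact (P04_innerSL_iff _ _ t).mpr (hw2 t)

end Pool.Agent.QA
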