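import Mathlib
import Pool.Agent.Helper961.Aub.Phys
import Pool.Agent.Helper981.QA.ELDefs
import Pool.Agent.Helper981.QA.P01
import Pool.Agent.Helper981.QA.P02
import Pool.Agent.Helper981.QA.P03
import Pool.Agent.Helper981.QA.P04

/-!
MP_7d4c8f_an, completeness and the flow on TM×T: LF_complete, LF_flow
-/

set_option autoImplicit false

open Set Filter Topology MeasureTheory
open scoped ContDiff

namespace Pool.Agent.QA

open Pool.Agent.Aub (lat PerField IsFlow action hT Cell zc hd run refill Dle Val base rl Vz MM mm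
  Realz YY Clamp Rho LL Jx EE mkp mkz pt Ty UU)

/-- representative of a time -/
noncomputable def P05_rep (t : AddCircle (1 : ℝ)) : ℝ :=
  ((AddCircle.equivIco (1 : ℝ) 0 t : Ico (0 : ℝ) (0 + 1)) : ℝ)

theorem P05_rep_coe (t : AddCircle (1 : ℝ)) : ((P05_rep t : ℝ) : AddCircle (1 : ℝ)) = t :=
  AddCircle.coe_equivIco

theorem P05_rep_meas : Measurable P05_rep :=
  measurable_subtype_coe.comp (AddCircle.measurableEquivIco (1 : ℝ) 0).measurable

theorem P05_prj_lat {ι : Type} [Fintype ι] (P : ℝ) (x : EuclideanSpace ℝ ι) (k : ι → ℤ) :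
    prj P (x + lat P k) = prj P x :=
  (prj_eq_iff P _ _).2 ⟨k, rfl⟩

/-- the flow -/
noncomputable def P05_Phi {ι : Type} [Fintype ι] (P : ℝ) [Fact (0 < P)]
    (F : EuclideanSpace ℝ ι → EuclideanSpace ℝ ι)
    (Ψ : ℝ → EuclideanSpace ℝ ι × EuclideanSpace ℝ ι →
      EuclideanSpace ℝ ι × EuclideanSpace ℝ ι) (s : ℝ) (p : Phase P ι) : Phase P ι :=
  cov P (Ψ s (lft P p.1, p.2.1 - F (lft P p.1))).1
    (F (Ψ s (lft P p.1, p.2.1 - F (lft P p.1))).1 + (Ψ s (lft P p.1, p.2.1 - F (lft P p.1))).2)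
    (P05_rep p.2.2 + s)

theorem P05_Phi_cov {ι : Type} [Fintype ι] (P : ℝ) [Fact (0 < P)]
    {F : EuclideanSpace ℝ ι → EuclideanSpace ℝ ι} (hF : PerField P F)
    {φ : ℝ → EuclideanSpace ℝ ι → EuclideanSpace ℝ ι}
    {Ψ : ℝ → EuclideanSpace ℝ ι × EuclideanSpace ℝ ι →
      EuclideanSpace ℝ ι × EuclideanSpace ℝ ι} (hΨ : ELF P F φ Ψ) (s t : ℝ)
    (x w : EuclideanSpace ℝ ι) :
    P05_Phi P F Ψ s (cov P x (F x + w) t) =
      cov P (Ψ s (x, w)).1 (F (Ψ s (x, w)).1 + (Ψ s (x, w)).2) (t + s) := by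
  obtain ⟨k, hk⟩ := (prj_eq_iff P (lft P (prj P x)) x).1 (prj_lft P (prj P x))
  unfold P05_Phi
  have e1 : (lft P (cov P x (F x + w) t).1) = x + lat P k := hk
  have e2 : (cov P x (F x + w) t).2.1 = F x + w := rfl
  have e3 : (cov P x (F x + w) t).2.2 = (t : AddCircle (1 : ℝ)) := rfl
  rw [e1, e2, e3, hF x k, add_sub_cancel_left, hΨ.lat]
  unfold cov
  dsimp only
  rw [P05_prj_lat, hF, AddCircle.coe_add, P05_rep_coe, ← AddCircle.coe_add]

theorem P05_deriv {ι : Type} [Fintype ι] {F : EuclideanSpace ℝ ι → EuclideanSpace ℝ ι}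
    {γ w : ℝ → EuclideanSpace ℝ ι}
    (h : ∀ t, HasDerivAt (fun s => (γ s, w s)) (GF F (γ t, w t)) t) (t : ℝ) :
    deriv γ t = F (γ t) + w t := by
  have h1 := (hasFDerivAt_fst (𝕜 := ℝ) (p := (γ t, w t))).comp_hasDerivAt t (h t)
  have h2 : HasDerivAt γ (F (γ t) + w t) t := h1
  exact h2.deriv

theorem LF_complete {ι : Type} [Fintype ι] (P : ℝ) [Fact (0 < P)]
    {F : EuclideanSpace ℝ ι → EuclideanSpace ℝ ι} (hs : ContDiff ℝ ∞ F) (hF : PerField P F)
    {φ : ℝ → EuclideanSpace ℝ ι → EuclideanSpace ℝ ι} (hφ : IsFlow F φ)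
    (x v : EuclideanSpace ℝ ι) (t : ℝ) :
    ∃ γ : ℝ → EuclideanSpace ℝ ι, IsExtremal P (LF P F) γ ∧ γ t = x ∧ deriv γ t = v := by
  obtain ⟨Ψ, hΨ⟩ := ELF_exists P hs hF hφ
  have h1 : ∀ u, HasDerivAt (fun s => ((fun r => (Ψ (r - t) (x, v - F x)).1) s,
      (fun r => (Ψ (r - t) (x, v - F x)).2) s))
      (GF F ((fun r => (Ψ (r - t) (x, v - F x)).1) u, (fun r => (Ψ (r - t) (x, v - F x)).2) u)) u :=
    fun u => (hΨ.deriv (x, v - F x) (u - t)).comp_sub_const u t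
  have h0 : Ψ (t - t) (x, v - F x) = (x, v - F x) := by rw [sub_self, hΨ.zero]
  refine ⟨fun r => (Ψ (r - t) (x, v - F x)).1,
    (LF_extremal_iff P hs hF _).2 ⟨fun r => (Ψ (r - t) (x, v - F x)).2, h1⟩, ?_, ?_⟩
  · show (Ψ (t - t) (x, v - F x)).1 = x
    rw [h0]
  · rw [P05_deriv h1 t]
    show F (Ψ (t - t) (x, v - F x)).1 + (Ψ (t - t) (x, v - F x)).2 = v
    rw [h0]
    show F x + (v - F x) = v
    abel

theorem LF_flow {ι : Type} [Fintype ι] (P : ℝ) [Fact (0 < P)]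
    {F : EuclideanSpace ℝ ι → EuclideanSpace ℝ ι} (hs : ContDiff ℝ ∞ F) (hF : PerField P F)
    {φ : ℝ → EuclideanSpace ℝ ι → EuclideanSpace ℝ ι} (hφ : IsFlow F φ) :
    ∃ Φ : ℝ → Phase P ι → Phase P ι, IsELFlow P (LF P F) Φ ∧ (∀ s, Measurable (Φ s)) ∧
      ∀ s x t, Φ s (cov P x (F x) t) = cov P (φ s x) (F (φ s x)) (t + s) := by
  obtain ⟨Ψ, hΨ⟩ := ELF_exists P hs hF hφ
  refine ⟨P05_Phi P F Ψ, ?_, ?_, ?_⟩
  · intro γ hγ t s
    obtain ⟨w, hw⟩ := (LF_extremal_iff P hs hF γ).1 hγ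
    have h1 := hΨ.uniq (fun s => (γ s, w s)) hw t s
    have h2 : Ψ s (γ t, w t) = (γ (t + s), w (t + s)) := h1.symm
    rw [P05_deriv hw t, P05_deriv hw (t + s), P05_Phi_cov P hF hΨ, h2]
  · intro s
    have hFm : Measurable F := hs.continuous.measurable
    have h1 : Measurable (fun p : Phase P ι => lft P p.1) := (lft_measurable P).comp measurable_fst
    have h2 : Measurable (fun p : Phase P ι => p.2.1 - F (lft P p.1)) :=
      (measurable_fst.comp measurable_snd).sub (hFm.comp h1)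
    have h3 : Measurable (fun p : Phase P ι => Ψ s (lft P p.1, p.2.1 - F (lft P p.1))) :=
      (hΨ.cont s).measurable.comp (h1.prodMk h2)
    have h4 : Measurable (fun p : Phase P ι => ((P05_rep p.2.2 + s : ℝ) : AddCircle (1 : ℝ))) := by
      have h5 : Measurable (fun r : ℝ => (r : AddCircle (1 : ℝ))) :=
        (AddCircle.measurable_mk' (a := (1 : ℝ)))
      exact h5.comp ((P05_rep_meas.comp (measurable_snd.comp measurable_snd)).add_const s)
    have h6 : Measurable (fun p : Phase P ι => prj P (Ψ s (lft P p.1, p.2.1 - F (lft P p.1))).1) :=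
      (prj_continuous P).measurable.comp h3.fst
    exact h6.prodMk (((hFm.comp h3.fst).add h3.snd).prodMk h4)
  · intro s x t
    have h1 := P05_Phi_cov P hF hΨ s t x 0
    rw [add_zero, hΨ.zerosec] at h1
    rw [h1]
    show cov P (φ s x) (F (φ s x) + 0) (t + s) = _
    rw [add_zero]

end Pool.Agent.QA
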