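import Mathlib
import Pool.Agent.Helper961.Aub.Phys
import Pool.Agent.Helper981.QA.ELDefs

/-!
MP_7d4c8f_an, Krylov-Bogoliubov for flows on compact metrizable spaces (krylov)
-/

set_option autoImplicit false

open Set Filter Topology MeasureTheory
open scoped ContDiff

namespace Pool.Agent.QA

open Pool.Agent.Aub (lat PerField IsFlow action hT Cell zc hd run refill Dle Val base rl Vz MM mm
  Realz YY Clamp Rho LL Jx EE mkp mkz pt Ty UU)

theorem krylov {X : Type} [TopologicalSpace X] [CompactSpace X] [TopologicalSpace.MetrizableSpace X]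
    [Nonempty X] [MeasurableSpace X] [BorelSpace X] (ψ : ℝ → X → X)
    (hc : Continuous (fun p : ℝ × X => ψ p.1 p.2)) (h0 : ∀ x, ψ 0 x = x)
    (ha : ∀ s t x, ψ (s + t) x = ψ s (ψ t x)) :
    ∃ μ : Measure X, IsProbabilityMeasure μ ∧ ∀ s, MeasurePreserving (ψ s) μ μ := by
  classical
  obtain ⟨x0⟩ := ‹Nonempty X›
  have hcs : ∀ s, Continuous (ψ s) := fun s => hc.comp (by fun_prop : Continuous fun x : X => ((s, x) : ℝ × X))
  have hct : Continuous (fun t : ℝ => ψ t x0) := hc.comp (by fun_prop : Continuous fun t : ℝ => ((t, x0) : ℝ × X))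
  have hg : ∀ n : ℕ, Continuous (fun t : ℝ => ψ (((n : ℝ) + 1) * t) x0) := fun n =>
    hct.comp (by fun_prop : Continuous fun t : ℝ => ((n : ℝ) + 1) * t)
  let ν : Measure ℝ := volume.restrict (Ioc (0 : ℝ) 1)
  have hν : IsProbabilityMeasure ν := ⟨by simp [ν]⟩
  let mm : ℕ → Measure X := fun n => ν.map (fun t : ℝ => ψ (((n : ℝ) + 1) * t) x0)
  have hmm : ∀ n, IsProbabilityMeasure (mm n) := fun n =>
    Measure.isProbabilityMeasure_map (hg n).measurable.aemeasurable
  let m : ℕ → ProbabilityMeasure X := fun n => ⟨mm n, hmm n⟩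
  have hint : ∀ (n : ℕ) (f : BoundedContinuousFunction X ℝ), ∫ x, f x ∂(m n : Measure X)
      = ∫ t in (0 : ℝ)..1, f (ψ (((n : ℝ) + 1) * t) x0) := by
    intro n f
    show ∫ x, f x ∂(ν.map (fun t : ℝ => ψ (((n : ℝ) + 1) * t) x0)) = _
    rw [integral_map (hg n).measurable.aemeasurable f.continuous.aestronglyMeasurable,
      intervalIntegral.integral_of_le zero_le_one]
  have hbd : ∀ (n : ℕ) (s : ℝ) (f : BoundedContinuousFunction X ℝ),
      ‖(∫ t in (0 : ℝ)..1, f (ψ s (ψ (((n : ℝ) + 1) * t) x0))) -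
        ∫ t in (0 : ℝ)..1, f (ψ (((n : ℝ) + 1) * t) x0)‖ ≤ (2 * ‖f‖ * |s|) * (1 / ((n : ℝ) + 1)) := by
    intro n s f
    set N : ℝ := (n : ℝ) + 1 with hN
    have hNpos : 0 < N := by positivity
    set h : ℝ → ℝ := fun u => f (ψ u x0) with hh
    have hhc : Continuous h := f.continuous.comp hct
    have hi : ∀ a b, IntervalIntegrable h volume a b := fun a b => hhc.intervalIntegrable a b
    have hb : ∀ u, ‖h u‖ ≤ ‖f‖ := fun u => f.norm_coe_le_norm _
    have e1 : (∫ t in (0 : ℝ)..1, f (ψ s (ψ (N * t) x0))) = N⁻¹ * ∫ u in s..(N + s), h u := by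
      have := intervalIntegral.integral_comp_mul_add (a := (0 : ℝ)) (b := 1) h hNpos.ne' s
      rw [smul_eq_mul, mul_zero, zero_add, mul_one] at this
      rw [← this]
      refine intervalIntegral.integral_congr fun t _ => ?_
      show f (ψ s (ψ (N * t) x0)) = f (ψ (N * t + s) x0)
      rw [← ha, add_comm]
    have e2 : (∫ t in (0 : ℝ)..1, f (ψ (N * t) x0)) = N⁻¹ * ∫ u in (0 : ℝ)..N, h u := by
      have := intervalIntegral.integral_comp_mul_add (a := (0 : ℝ)) (b := 1) h hNpos.ne' 0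
      rw [smul_eq_mul, mul_zero, add_zero, add_zero, mul_one] at this
      rw [← this]
      refine intervalIntegral.integral_congr fun t _ => ?_
      show f (ψ (N * t) x0) = f (ψ (N * t + 0) x0)
      rw [add_zero]
    have e3 : (∫ u in s..(N + s), h u) - ∫ u in (0 : ℝ)..N, h u
        = (∫ u in N..(N + s), h u) - ∫ u in (0 : ℝ)..s, h u := by
      have a1 := intervalIntegral.integral_add_adjacent_intervals (hi 0 s) (hi s (N + s))
      have a2 := intervalIntegral.integral_add_adjacent_intervals (hi 0 N) (hi N (N + s))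
      linarith
    have b1 : ‖∫ u in N..(N + s), h u‖ ≤ ‖f‖ * |s| := by
      have := intervalIntegral.norm_integral_le_of_norm_le_const (a := N) (b := N + s) (f := h) (C := ‖f‖)
        (fun u _ => hb u)
      rwa [add_sub_cancel_left] at this
    have b2 : ‖∫ u in (0 : ℝ)..s, h u‖ ≤ ‖f‖ * |s| := by
      have := intervalIntegral.norm_integral_le_of_norm_le_const (a := 0) (b := s) (f := h) (C := ‖f‖)
        (fun u _ => hb u)
      rwa [sub_zero] at this
    rw [e1, e2, ← mul_sub, e3, norm_mul, norm_inv, Real.norm_of_nonneg hNpos.le, one_div,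
      mul_comm]
    have b3 : ‖(∫ u in N..(N + s), h u) - ∫ u in (0 : ℝ)..s, h u‖ ≤ 2 * ‖f‖ * |s| := by
      refine (norm_sub_le _ _).trans ?_
      linarith
    exact mul_le_mul_of_nonneg_right b3 (inv_nonneg.2 hNpos.le)
  let U : Ultrafilter ℕ := Ultrafilter.of atTop
  have hU : (U : Filter ℕ) ≤ atTop := Ultrafilter.of_le atTop
  let μ : ProbabilityMeasure X := (U.map m).lim
  have hμ : Tendsto m U (𝓝 μ) := (U.map m).le_nhds_lim
  have hμf := ProbabilityMeasure.tendsto_iff_forall_integral_tendsto.1 hμ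
  have hinv : ∀ (s : ℝ) (f : BoundedContinuousFunction X ℝ),
      ∫ x, f (ψ s x) ∂(μ : Measure X) = ∫ x, f x ∂(μ : Measure X) := by
    intro s f
    have h1 := hμf f
    have h2 := hμf (f.compContinuous ⟨ψ s, hcs s⟩)
    have h3 : Tendsto (fun n : ℕ => (∫ x, (f.compContinuous ⟨ψ s, hcs s⟩) x ∂(m n : Measure X))
        - ∫ x, f x ∂(m n : Measure X)) U (𝓝 0) := by
      have h4 : Tendsto (fun n : ℕ => (2 * ‖f‖ * |s|) * (1 / ((n : ℝ) + 1))) U (𝓝 ((2 * ‖f‖ * |s|) * 0)) :=
        (tendsto_one_div_add_atTop_nhds_zero_nat.mono_left hU).const_mul _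
      rw [mul_zero] at h4
      refine squeeze_zero_norm (fun n => ?_) h4
      rw [hint, hint]
      exact hbd n s f
    have h5 := tendsto_nhds_unique h3 (h2.sub h1)
    have h6 : (∫ x, (f.compContinuous ⟨ψ s, hcs s⟩) x ∂(μ : Measure X)) = ∫ x, f x ∂(μ : Measure X) := by
      linarith
    exact h6
  refine ⟨μ, inferInstance, fun s => ⟨(hcs s).measurable, ?_⟩⟩
  have : IsProbabilityMeasure ((μ : Measure X).map (ψ s)) :=
    Measure.isProbabilityMeasure_map (hcs s).measurable.aemeasurable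
  refine ext_of_forall_integral_eq_of_IsFiniteMeasure fun f => ?_
  rw [integral_map (hcs s).measurable.aemeasurable f.continuous.aestronglyMeasurable]
  exact hinv s f

end Pool.Agent.QA
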