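import Mathlib
import Pool.Agent.Helper961.Aub.Phys
import Pool.Agent.Helper981.QA.ELDefs

/-!
MP_7d4c8f_an, facts on the flow of a periodic smooth field, general dimension (gen_flow)
-/

set_option autoImplicit false

open Set Filter Topology MeasureTheory
open scoped ContDiff

namespace Pool.Agent.QA

open Pool.Agent.Aub (lat PerField IsFlow action hT Cell zc hd run refill Dle Val base rl Vz MM mm
  Realz YY Clamp Rho LL Jx EE mkp mkz pt Ty UU)

theorem P08_bdd {ι : Type} [Fintype ι] {G : Type*} [NormedAddCommGroup G] {g : (EuclideanSpace ℝ ι) → G} {L : ℝ} (hL : 0 < L)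
    (hc : Continuous g) (hp : ∀ x (k : ι → ℤ), g (x + lat L k) = g x) :
    ∃ B : ℝ, 0 < B ∧ ∀ x, ‖g x‖ ≤ B := by
  have hK : IsCompact (Set.pi Set.univ (fun _ : ι => Set.Icc (0 : ℝ) L)) :=
    isCompact_univ_pi (fun _ => isCompact_Icc)
  have hK2 : IsCompact ((WithLp.toLp 2 : (ι → ℝ) → (EuclideanSpace ℝ ι)) ''
      (Set.pi Set.univ (fun _ : ι => Set.Icc (0 : ℝ) L))) :=
    hK.image (PiLp.continuous_toLp 2 _)
  obtain ⟨C, hC⟩ := hK2.exists_bound_of_continuousOn hc.continuousOn
  refine ⟨max C 1, lt_max_of_lt_right one_pos, ?_⟩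
  intro x
  have h1 := hp x (fun i => -⌊x i / L⌋)
  rw [← h1]
  refine le_trans (hC _ ?_) (le_max_left _ _)
  refine ⟨fun i => x i - L * (⌊x i / L⌋ : ℝ), ?_, ?_⟩
  · intro i _
    have h2 := Int.floor_le (x i / L)
    have h3 := Int.lt_floor_add_one (x i / L)
    have h4 : L * (x i / L) = x i := by field_simp
    constructor
    · have : L * (⌊x i / L⌋ : ℝ) ≤ L * (x i / L) := mul_le_mul_of_nonneg_left h2 hL.le
      simp only
      linarith
    · have : L * (x i / L) ≤ L * ((⌊x i / L⌋ : ℝ) + 1) := mul_le_mul_of_nonneg_left h3.le hL.le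
      simp only
      linarith
  · ext i
    simp [lat]
    ring

theorem P08_uniq {ι : Type} [Fintype ι] {F : (EuclideanSpace ℝ ι) → (EuclideanSpace ℝ ι)} {K : NNReal} (hK : LipschitzWith K F) {f g : ℝ → (EuclideanSpace ℝ ι)}
    (hf : ∀ t, HasDerivAt f (F (f t)) t) (hg : ∀ t, HasDerivAt g (F (g t)) t)
    (h0 : f 0 = g 0) : f = g := by
  exact ODE_solution_unique_univ (v := fun _ => F) (s := fun _ => Set.univ) (t₀ := 0)
    (fun _ => hK.lipschitzOnWith) (fun t => ⟨hf t, trivial⟩) (fun t => ⟨hg t, trivial⟩) h0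

theorem P08_gron {ι : Type} [Fintype ι] {F : (EuclideanSpace ℝ ι) → (EuclideanSpace ℝ ι)} {K : NNReal} (hK : LipschitzWith K F) {f g : ℝ → (EuclideanSpace ℝ ι)}
    (hf : ∀ t, HasDerivAt f (F (f t)) t) (hg : ∀ t, HasDerivAt g (F (g t)) t)
    {t : ℝ} (ht : 0 ≤ t) : ‖f t - g t‖ ≤ Real.exp (K * t) * ‖f 0 - g 0‖ := by
  have h := dist_le_of_trajectories_ODE (v := fun _ => F) (f := f) (g := g) (a := 0) (b := t)
    (δ := dist (f 0) (g 0)) (K := K) (fun _ => hK)
    (fun s _ => (hf s).continuousAt.continuousWithinAt)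
    (fun s _ => (hf s).hasDerivWithinAt)
    (fun s _ => (hg s).continuousAt.continuousWithinAt)
    (fun s _ => (hg s).hasDerivWithinAt) le_rfl t ⟨ht, le_rfl⟩
  rw [dist_eq_norm, dist_eq_norm, sub_zero] at h
  linarith [h, mul_comm ‖f 0 - g 0‖ (Real.exp (K * t))]

theorem gen_flow {ι : Type} [Fintype ι] {P : ℝ} (hP : 0 < P)
    {F : EuclideanSpace ℝ ι → EuclideanSpace ℝ ι} (hs : ContDiff ℝ ∞ F) (hF : PerField P F)
    {φ : ℝ → EuclideanSpace ℝ ι → EuclideanSpace ℝ ι} (hφ : IsFlow F φ) :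
    ∃ K B : ℝ, 0 < K ∧ 0 < B ∧ (∀ x y, ‖F x - F y‖ ≤ K * ‖x - y‖) ∧ (∀ x, ‖F x‖ ≤ B) ∧
      (∀ s t x, φ (s + t) x = φ s (φ t x)) ∧
      (∀ t x (k : ι → ℤ), φ t (x + lat P k) = φ t x + lat P k) ∧
      (∀ t x y, ‖φ t x - φ t y‖ ≤ Real.exp (K * |t|) * ‖x - y‖) := by
  have hdiff : Differentiable ℝ F := hs.differentiable (by simp)
  have hcd : Continuous (fderiv ℝ F) := hs.continuous_fderiv (by simp)
  obtain ⟨B, hB0, hB⟩ := P08_bdd hP hdiff.continuous hF
  obtain ⟨C, hC0, hC⟩ := P08_bdd (g := fderiv ℝ F) hP hcd (by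
    intro x k
    have h1 : fderiv ℝ (fun y => F (y + lat P k)) x = fderiv ℝ F (x + lat P k) :=
      fderiv_comp_add_right (lat P k)
    rw [← h1]
    congr 1
    funext y
    exact hF y k)
  have hlip : LipschitzWith ⟨C, hC0.le⟩ F :=
    lipschitzWith_of_nnnorm_fderiv_le hdiff (fun x => by
      have := hC x
      exact this)
  have hK2 : LipschitzWith ⟨C, hC0.le⟩ (fun x => - F x) := hlip.neg
  refine ⟨C, B, hC0, hB0, ?_, hB, ?_, ?_, ?_⟩
  · intro x y
    have := hlip.dist_le_mul x y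
    rw [dist_eq_norm, dist_eq_norm] at this
    exact this
  · intro s t x
    have h := P08_uniq hlip (f := fun s => φ (s + t) x) (g := fun s => φ s (φ t x))
      (fun u => by
        have := (hφ.2 x (u + t))
        have h2 := this.comp_add_const u t
        exact h2)
      (fun u => hφ.2 (φ t x) u)
      (by simp [hφ.1])
    exact congrFun h s
  · intro t x k
    have h := P08_uniq hlip (f := fun s => φ s (x + lat P k)) (g := fun s => φ s x + lat P k)
      (fun u => hφ.2 _ u)
      (fun u => by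
        have := (hφ.2 x u).add_const (lat P k)
        rw [hF]
        exact this)
      (by simp [hφ.1])
    exact congrFun h t
  · intro t x y
    rcases le_total 0 t with ht | ht
    · have h := P08_gron hlip (f := fun s => φ s x) (g := fun s => φ s y)
        (fun u => hφ.2 _ u) (fun u => hφ.2 _ u) ht
      simp only [hφ.1] at h
      rw [abs_of_nonneg ht]
      exact h
    · have ht' : 0 ≤ -t := by linarith
      have hr : ∀ z : (EuclideanSpace ℝ ι), ∀ u : ℝ, HasDerivAt (fun s => φ (-s) z) (- F (φ (-u) z)) u := by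
        intro z u
        have h1 := hφ.2 z (-u)
        have h2 := h1.scomp u (hasDerivAt_neg u)
        rw [neg_one_smul] at h2
        exact h2
      have h := P08_gron hK2 (f := fun s => φ (-s) x) (g := fun s => φ (-s) y)
        (fun u => hr x u) (fun u => hr y u) ht'
      simp only [neg_zero, neg_neg, hφ.1] at h
      rw [abs_of_nonpos ht]
      exact h

end Pool.Agent.QA
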