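import Mathlib
import Pool.Agent.Helper981.QA.P01
import Pool.Agent.Helper981.QA.P02
import Pool.Agent.Helper981.QA.P06
import Pool.Agent.Helper981.QA.P08

set_option autoImplicit false

open Set Filter Topology MeasureTheory
open scoped ContDiff

namespace Pool.Agent.QA

open Pool.Agent.Aub (lat PerField IsFlow action hT Cell zc hd run refill Dle Val base rl Vz MM mm
  Realz YY Clamp Rho LL Jx EE mkp mkz pt Ty UU)

theorem P07_open {ι : Type} [Fintype ι] (P : ℝ) :
    IsOpenQuotientMap (prj P : EuclideanSpace ℝ ι → Torus P ι) := by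
  have h1 : IsOpenQuotientMap (Pi.map (fun _ : ι => ((↑) : ℝ → AddCircle P))) :=
    IsOpenQuotientMap.piMap (fun _ => QuotientAddGroup.isOpenQuotientMap_mk)
  have h2 : IsOpenQuotientMap (WithLp.ofLp : EuclideanSpace ℝ ι → (ι → ℝ)) :=
    (PiLp.homeomorph 2 (fun _ : ι => ℝ)).isOpenQuotientMap
  exact h1.comp h2


theorem LF_alpha {ι : Type} [Fintype ι] (P : ℝ) [Fact (0 < P)]
    {F : EuclideanSpace ℝ ι → EuclideanSpace ℝ ι} (hs : ContDiff ℝ ∞ F) (hF : PerField P F)
    {φ : ℝ → EuclideanSpace ℝ ι → EuclideanSpace ℝ ι} (hφ : IsFlow F φ)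
    (Φ : ℝ → Phase P ι → Phase P ι) (hm : ∀ s, Measurable (Φ s))
    (hΦ : ∀ s x t, Φ s (cov P x (F x) t) = cov P (φ s x) (F (φ s x)) (t + s)) :
    IsAlpha P (LF P F) Φ 0 0 := by
  obtain ⟨K, B, hK, hB, hl1, hl2, hg, hlat, hc⟩ := gen_flow (Fact.out : 0 < P) hs hF hφ
  have hFc : Continuous F := hs.continuous
  have hLc : Lc P (LF P F) 0 0 = LF P F := by
    funext p
    simp [Lc]
  have hLn : ∀ p, 0 ≤ LF P F p := fun p => by unfold LF; positivity
  -- F ∘ lft ∘ prj = F
  have hrep : ∀ x : EuclideanSpace ℝ ι, ∃ k : ι → ℤ, lft P (prj P x) = x + lat P k := by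
    intro x
    exact (prj_eq_iff P _ _).1 (prj_lft P (prj P x))
  have hFl : ∀ x, F (lft P (prj P x)) = F x := by
    intro x
    obtain ⟨k, hk⟩ := hrep x
    rw [hk]
    exact hF x k
  have hφl : ∀ s x, prj P (φ s (lft P (prj P x))) = prj P (φ s x) := by
    intro s x
    obtain ⟨k, hk⟩ := hrep x
    rw [hk, hlat]
    exact (prj_eq_iff P _ _).2 ⟨k, rfl⟩
  -- the flow is jointly continuous
  have hcx : ∀ s, Continuous (φ s) := by
    intro s
    refine (LipschitzWith.of_dist_le_mul (K := ⟨Real.exp (K * |s|), (Real.exp_pos _).le⟩) ?_).continuous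
    intro x y
    rw [dist_eq_norm, dist_eq_norm]
    exact hc s x y
  have hjc : Continuous (fun p : ℝ × EuclideanSpace ℝ ι => φ p.1 p.2) := by
    refine continuous_prod_of_continuous_lipschitzWith _ (⟨B, hB.le⟩ : NNReal) (fun s => hcx s) ?_
    intro x
    refine LipschitzWith.of_dist_le_mul ?_
    intro s t
    rw [dist_eq_norm, dist_eq_norm]
    exact Convex.norm_image_sub_le_of_norm_hasDerivWithin_le (s := univ)
      (fun u _ => (hφ.2 x u).hasDerivWithinAt) (fun u _ => hl2 _) convex_univ (mem_univ _)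
      (mem_univ _)
  let ψ : ℝ → Torus P ι × AddCircle (1 : ℝ) → Torus P ι × AddCircle (1 : ℝ) :=
    fun s p => (prj P (φ s (lft P p.1)), p.2 + (s : AddCircle (1 : ℝ)))
  have hψp : ∀ s x t, ψ s (prj P x, t) = (prj P (φ s x), t + (s : AddCircle (1 : ℝ))) := by
    intro s x t
    simp only [ψ, hφl]
  have hψc : Continuous (fun p : ℝ × (Torus P ι × AddCircle (1 : ℝ)) => ψ p.1 p.2) := by
    have h1 : Continuous (fun p : ℝ × Torus P ι => prj P (φ p.1 (lft P p.2))) := by
      have hq : IsOpenQuotientMap (Prod.map id (prj P) : ℝ × EuclideanSpace ℝ ι → ℝ × Torus P ι) :=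
        IsOpenQuotientMap.id.prodMap (P07_open P)
      rw [hq.isQuotientMap.continuous_iff]
      have : (fun p : ℝ × Torus P ι => prj P (φ p.1 (lft P p.2))) ∘ (Prod.map id (prj P)) =
          fun p : ℝ × EuclideanSpace ℝ ι => prj P (φ p.1 p.2) := by
        funext p
        exact hφl p.1 p.2
      rw [this]
      exact (prj_continuous P).comp hjc
    refine Continuous.prodMk ?_ ?_
    · exact h1.comp (by fun_prop : Continuous (fun p : ℝ × (Torus P ι × AddCircle (1 : ℝ)) => (p.1, p.2.1)))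
    · exact (continuous_snd.comp continuous_snd).add ((AddCircle.continuous_mk' 1).comp continuous_fst)
  have hsurj : ∀ p : Torus P ι × AddCircle (1 : ℝ), ∃ (x : EuclideanSpace ℝ ι) (τ : ℝ),
      p = (prj P x, (τ : AddCircle (1 : ℝ))) := by
    rintro ⟨q, t⟩
    obtain ⟨τ, rfl⟩ := QuotientAddGroup.mk_surjective t
    exact ⟨lft P q, τ, by rw [prj_lft]⟩
  obtain ⟨ν, hν, hinv⟩ := krylov ψ hψc (by
    intro p
    obtain ⟨x, τ, rfl⟩ := hsurj p
    rw [hψp, hφ.1 x]
    simp) (by
    intro s t p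
    obtain ⟨x, τ, rfl⟩ := hsurj p
    rw [hψp (s + t) x, hψp t x, hψp s (φ t x), hg s t x]
    refine Prod.ext rfl ?_
    simp only [AddCircle.coe_add]
    abel)
  let j : Torus P ι × AddCircle (1 : ℝ) → Phase P ι := fun p => (p.1, F (lft P p.1), p.2)
  have hjm : Measurable j :=
    measurable_fst.prodMk
      ((hFc.measurable.comp ((lft_measurable P).comp measurable_fst)).prodMk measurable_snd)
  have hjp : ∀ x (τ : ℝ), j (prj P x, (τ : AddCircle (1 : ℝ))) = cov P x (F x) τ := by
    intro x τ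
    simp only [j, cov, hFl]
  have hjΦ : ∀ s p, Φ s (j p) = j (ψ s p) := by
    intro s p
    obtain ⟨x, τ, rfl⟩ := hsurj p
    rw [hψp, hjp, hΦ, ← AddCircle.coe_add, hjp]
  have hLj : ∀ p, LF P F (j p) = 0 := by
    intro p
    simp [LF, j]
  have hLFm : Measurable (LF P F) := by
    unfold LF
    exact (((measurable_fst.comp measurable_snd).sub
      (hFc.measurable.comp ((lft_measurable P).comp measurable_fst))).norm.pow_const 2).div_const 2
  unfold IsAlpha
  rw [hLc]
  constructor
  · rintro r ⟨μ, hμ, hi, rfl⟩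
    exact integral_nonneg hLn
  · intro b hb
    refine hb ⟨ν.map j, ⟨Measure.isProbabilityMeasure_map hjm.aemeasurable, ?_⟩, ?_, ?_⟩
    · intro s
      refine ⟨hm s, ?_⟩
      rw [Measure.map_map (hm s) hjm]
      have : Φ s ∘ j = j ∘ ψ s := by
        funext p
        exact hjΦ s p
      rw [this, ← Measure.map_map hjm (hinv s).measurable, (hinv s).map_eq]
    · rw [integrable_map_measure hLFm.aestronglyMeasurable hjm.aemeasurable]
      have : LF P F ∘ j = fun _ => 0 := by
        funext p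
        exact hLj p
      rw [this]
      exact integrable_zero _ _ _
    · rw [integral_map hjm.aemeasurable hLFm.aestronglyMeasurable]
      simp [hLj]

end Pool.Agent.QA
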