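import Mathlib
import Pool.Agent.Helper961.Aub.Phys
import Pool.Agent.Helper981.QA.ELDefs

/-!
MP_7d4c8f_an, lattice invariance, concatenation, flow curves: hT_lat, hT_concat, hT_flow
-/

set_option autoImplicit false

open Set Filter Topology MeasureTheory
open scoped ContDiff

namespace Pool.Agent.QA

open Pool.Agent.Aub (lat PerField IsFlow action hT Cell zc hd run refill Dle Val base rl Vz MM mm
  Realz YY Clamp Rho LL Jx EE mkp mkz pt Ty UU)

theorem P10_lat_add {ι : Type} [Fintype ι] (P : ℝ) (k m : ι → ℤ) :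
    lat P (k + m) = lat P k + lat P m := by
  ext i
  simp only [lat, Pi.add_apply, Int.cast_add, PiLp.add_apply]
  ring

theorem P10_lat_zero {ι : Type} [Fintype ι] (P : ℝ) : lat P (0 : ι → ℤ) = 0 := by
  ext i
  simp [lat]

theorem P10_lat_le {ι : Type} [Fintype ι] (P : ℝ)
    {F : EuclideanSpace ℝ ι → EuclideanSpace ℝ ι} (hF : PerField P F) (T : ℝ)
    (x y : EuclideanSpace ℝ ι) (k m : ι → ℤ) :
    hT P F T (x + lat P k) (y + lat P m) ≤ hT P F T x y := by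
  refine le_iInf fun γ => le_iInf fun v => le_iInf fun hc => le_iInf fun h0 => le_iInf fun hk => ?_
  obtain ⟨k', hk'⟩ := hk
  have hact : Pool.Agent.Aub.action F (fun t => γ t + lat P k) v T =
      Pool.Agent.Aub.action F γ v T := by
    unfold Pool.Agent.Aub.action
    refine lintegral_congr fun s => ?_
    rw [hF]
  rw [← hact]
  unfold hT
  refine iInf_le_of_le (fun t => γ t + lat P k) (iInf_le_of_le v (iInf_le_of_le ?_
    (iInf_le_of_le ?_ (iInf_le_of_le ?_ le_rfl))))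
  · refine ⟨hc.1, fun s hs => ?_⟩
    show γ s + lat P k = γ 0 + lat P k + _
    rw [hc.2 s hs]
    abel
  · show γ 0 + lat P k = _
    rw [h0]
  · refine ⟨k' + k + -m, ?_⟩
    show γ T + lat P k = _
    have h1 : lat P m + lat P (-m) = 0 := by
      rw [← P10_lat_add, add_neg_cancel, P10_lat_zero]
    rw [hk', P10_lat_add, P10_lat_add]
    calc y + lat P k' + lat P k = y + lat P k' + lat P k + 0 := by rw [add_zero]
      _ = y + lat P k' + lat P k + (lat P m + lat P (-m)) := by rw [h1]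
      _ = _ := by abel

theorem hT_lat {ι : Type} [Fintype ι] (P : ℝ)
    {F : EuclideanSpace ℝ ι → EuclideanSpace ℝ ι} (hF : PerField P F) (T : ℝ) (hT0 : 0 ≤ T)
    (x y : EuclideanSpace ℝ ι) (k m : ι → ℤ) :
    hT P F T (x + lat P k) (y + lat P m) = hT P F T x y := by
  apply le_antisymm (P10_lat_le P hF T x y k m)
  have h1 := P10_lat_le P hF T (x + lat P k) (y + lat P m) (-k) (-m)
  have h2 : x + lat P k + lat P (-k) = x := by
    rw [add_assoc, ← P10_lat_add, add_neg_cancel, P10_lat_zero, add_zero]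
  have h3 : y + lat P m + lat P (-m) = y := by
    rw [add_assoc, ← P10_lat_add, add_neg_cancel, P10_lat_zero, add_zero]
  rwa [h2, h3] at h1

/-- concatenation -/
noncomputable def P10_cat {ι : Type} [Fintype ι] (S : ℝ) (a b : ℝ → EuclideanSpace ℝ ι) :
    ℝ → EuclideanSpace ℝ ι := fun t => if t ≤ S then a t else b (t - S)

theorem P10_cat_le {ι : Type} [Fintype ι] {S : ℝ} (a b : ℝ → EuclideanSpace ℝ ι) {t : ℝ}
    (h : t ≤ S) : P10_cat S a b t = a t := if_pos h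

theorem P10_cat_gt {ι : Type} [Fintype ι] {S : ℝ} (a b : ℝ → EuclideanSpace ℝ ι) {t : ℝ}
    (h : S < t) : P10_cat S a b t = b (t - S) := if_neg (not_le.2 h)

theorem P10_int_on {ι : Type} [Fintype ι] {S T : ℝ} (hS : 0 ≤ S) (hT0 : 0 ≤ T)
    (a b : ℝ → EuclideanSpace ℝ ι) (ha : IntegrableOn a (Icc 0 S)) (hb : IntegrableOn b (Icc 0 T)) :
    IntegrableOn (P10_cat S a b) (Icc 0 (S + T)) := by
  have h1 : Icc (0 : ℝ) (S + T) = Icc 0 S ∪ Ioc S (S + T) :=
    (Icc_union_Ioc_eq_Icc hS (by linarith)).symm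
  rw [h1]
  apply IntegrableOn.union
  · exact ha.congr_fun (fun t ht => (P10_cat_le a b ht.2).symm) measurableSet_Icc
  · have h2 : IntervalIntegrable b volume 0 T := by
      rw [intervalIntegrable_iff_integrableOn_Icc_of_le hT0]
      exact hb
    have h3 := h2.comp_sub_right S
    rw [zero_add, intervalIntegrable_iff_integrableOn_Ioc_of_le (by linarith), add_comm T S] at h3
    exact h3.congr_fun (fun t ht => (P10_cat_gt a b ht.1).symm) measurableSet_Ioc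

theorem P10_curve {ι : Type} [Fintype ι] {S T : ℝ} (hS : 0 ≤ S) (hT0 : 0 ≤ T)
    (γ₁ v₁ γ₂ v₂ : ℝ → EuclideanSpace ℝ ι) (h1 : Pool.Agent.Aub.IsCurve γ₁ v₁ S)
    (h2 : Pool.Agent.Aub.IsCurve γ₂ v₂ T) (h : γ₁ S = γ₂ 0) :
    Pool.Agent.Aub.IsCurve (P10_cat S γ₁ γ₂) (P10_cat S v₁ v₂) (S + T) := by
  refine ⟨P10_int_on hS hT0 v₁ v₂ h1.1 h2.1, fun s hs => ?_⟩
  have hint := P10_int_on hS hT0 v₁ v₂ h1.1 h2.1
  have hsub : ∀ r, 0 ≤ r → r ≤ S → (∫ u in (0 : ℝ)..r, P10_cat S v₁ v₂ u) =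
      ∫ u in (0 : ℝ)..r, v₁ u := by
    intro r hr hrS
    refine intervalIntegral.integral_congr fun u hu => ?_
    rw [uIcc_of_le hr] at hu
    exact P10_cat_le _ _ (hu.2.trans hrS)
  rw [P10_cat_le γ₁ γ₂ hS]
  rcases le_or_gt s S with hsS | hsS
  · rw [P10_cat_le _ _ hsS, hsub s hs.1 hsS]
    exact h1.2 s ⟨hs.1, hsS⟩
  · rw [P10_cat_gt _ _ hsS]
    have hi1 : IntervalIntegrable (P10_cat S v₁ v₂) volume 0 S := by
      rw [intervalIntegrable_iff_integrableOn_Icc_of_le hS]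
      exact hint.mono_set (Icc_subset_Icc_right (by linarith))
    have hi2 : IntervalIntegrable (P10_cat S v₁ v₂) volume S s := by
      rw [intervalIntegrable_iff_integrableOn_Icc_of_le hsS.le]
      exact hint.mono_set (Icc_subset_Icc hS hs.2)
    rw [← intervalIntegral.integral_add_adjacent_intervals hi1 hi2, hsub S hS le_rfl]
    have e1 : (∫ u in S..s, P10_cat S v₁ v₂ u) = ∫ u in S..s, v₂ (u - S) := by
      rw [intervalIntegral.integral_of_le hsS.le, intervalIntegral.integral_of_le hsS.le]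
      exact setIntegral_congr_fun measurableSet_Ioc fun u hu => P10_cat_gt _ _ hu.1
    rw [e1, intervalIntegral.integral_comp_sub_right, sub_self]
    have e2 := h2.2 (s - S) ⟨by linarith, by linarith [hs.2]⟩
    have e3 := h1.2 S ⟨hS, le_rfl⟩
    rw [e2, ← h, e3]
    abel

theorem P10_act {ι : Type} [Fintype ι] {S T : ℝ} (hS : 0 ≤ S) (hT0 : 0 ≤ T)
    (F : EuclideanSpace ℝ ι → EuclideanSpace ℝ ι) (γ₁ v₁ γ₂ v₂ : ℝ → EuclideanSpace ℝ ι) :
    Pool.Agent.Aub.action F (P10_cat S γ₁ γ₂) (P10_cat S v₁ v₂) (S + T) ≤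
      Pool.Agent.Aub.action F γ₁ v₁ S + Pool.Agent.Aub.action F γ₂ v₂ T := by
  unfold Pool.Agent.Aub.action
  have h1 : Icc (0 : ℝ) (S + T) = Icc 0 S ∪ Ioc S (S + T) :=
    (Icc_union_Ioc_eq_Icc hS (by linarith)).symm
  rw [h1]
  refine (lintegral_union_le _ _ _).trans (add_le_add (le_of_eq ?_) ?_)
  · refine setLIntegral_congr_fun measurableSet_Icc fun t ht => ?_
    show ENNReal.ofReal (‖P10_cat S v₁ v₂ t - F (P10_cat S γ₁ γ₂ t)‖ ^ 2 / 2) = _
    rw [P10_cat_le _ _ ht.2, P10_cat_le _ _ ht.2]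
  · have h2 : ∫⁻ t in Ioc S (S + T),
        ENNReal.ofReal (‖P10_cat S v₁ v₂ t - F (P10_cat S γ₁ γ₂ t)‖ ^ 2 / 2) =
        ∫⁻ t in (fun t => t - S) ⁻¹' (Ioc 0 T),
          ENNReal.ofReal (‖v₂ (t - S) - F (γ₂ (t - S))‖ ^ 2 / 2) := by
      rw [Set.preimage_sub_const_Ioc, zero_add, add_comm T S]
      refine setLIntegral_congr_fun measurableSet_Ioc fun t ht => ?_
      show ENNReal.ofReal (‖P10_cat S v₁ v₂ t - F (P10_cat S γ₁ γ₂ t)‖ ^ 2 / 2) = _
      rw [P10_cat_gt _ _ ht.1, P10_cat_gt _ _ ht.1]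
    rw [h2, (measurePreserving_sub_right volume S).setLIntegral_comp_preimage_emb
      (measurableEmbedding_subRight S) (fun t => ENNReal.ofReal (‖v₂ t - F (γ₂ t)‖ ^ 2 / 2))]
    exact lintegral_mono_set Ioc_subset_Icc_self

theorem hT_concat {ι : Type} [Fintype ι] (P : ℝ)
    {F : EuclideanSpace ℝ ι → EuclideanSpace ℝ ι} (hF : PerField P F) (S T : ℝ) (hS : 0 ≤ S)
    (hT0 : 0 ≤ T) (x y z : EuclideanSpace ℝ ι) :
    hT P F (S + T) x z ≤ hT P F S x y + hT P F T y z := by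
  have key : ∀ (γ₁ v₁ : ℝ → EuclideanSpace ℝ ι), Pool.Agent.Aub.IsCurve γ₁ v₁ S → γ₁ 0 = x →
      (∃ k : ι → ℤ, γ₁ S = y + lat P k) → ∀ (γ₂ v₂ : ℝ → EuclideanSpace ℝ ι),
      Pool.Agent.Aub.IsCurve γ₂ v₂ T → γ₂ 0 = y → (∃ k : ι → ℤ, γ₂ T = z + lat P k) →
      hT P F (S + T) x z ≤ Pool.Agent.Aub.action F γ₁ v₁ S + Pool.Agent.Aub.action F γ₂ v₂ T := by
    rintro γ₁ v₁ hc1 h10 ⟨k1, hk1⟩ γ₂ v₂ hc2 h20 ⟨k2, hk2⟩
    have hc2' : Pool.Agent.Aub.IsCurve (fun t => γ₂ t + lat P k1) v₂ T := by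
      refine ⟨hc2.1, fun s hs => ?_⟩
      show γ₂ s + lat P k1 = γ₂ 0 + lat P k1 + _
      rw [hc2.2 s hs]
      abel
    have hact : Pool.Agent.Aub.action F (fun t => γ₂ t + lat P k1) v₂ T =
        Pool.Agent.Aub.action F γ₂ v₂ T := by
      unfold Pool.Agent.Aub.action
      refine lintegral_congr fun s => ?_
      rw [hF]
    have hjoin : γ₁ S = (fun t => γ₂ t + lat P k1) 0 := by
      show γ₁ S = γ₂ 0 + lat P k1
      rw [hk1, h20]
    rw [← hact]
    refine le_trans ?_ (P10_act hS hT0 F γ₁ v₁ (fun t => γ₂ t + lat P k1) v₂)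
    unfold hT
    refine iInf_le_of_le (P10_cat S γ₁ (fun t => γ₂ t + lat P k1))
      (iInf_le_of_le (P10_cat S v₁ v₂) (iInf_le_of_le
        (P10_curve hS hT0 γ₁ v₁ _ v₂ hc1 hc2' hjoin)
        (iInf_le_of_le ?_ (iInf_le_of_le ?_ le_rfl))))
    · rw [P10_cat_le _ _ hS, h10]
    · refine ⟨k2 + k1, ?_⟩
      rw [P10_lat_add, ← add_assoc, ← hk2]
      rcases hT0.eq_or_lt with h | h
      · rw [← h, add_zero, P10_cat_le _ _ le_rfl]
        exact hjoin
      · rw [P10_cat_gt _ _ (by linarith), add_sub_cancel_left]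
  have e : hT P F S x y + hT P F T y z =
      ⨅ (γ₁ : ℝ → EuclideanSpace ℝ ι) (v₁ : ℝ → EuclideanSpace ℝ ι)
        (_ : Pool.Agent.Aub.IsCurve γ₁ v₁ S) (_ : γ₁ 0 = x)
        (_ : ∃ k : ι → ℤ, γ₁ S = y + lat P k), (Pool.Agent.Aub.action F γ₁ v₁ S + hT P F T y z) := by
    conv_lhs => unfold hT
    simp only [ENNReal.iInf_add]
    rfl
  rw [e]
  refine le_iInf fun γ₁ => le_iInf fun v₁ => le_iInf fun hc1 => le_iInf fun h10 =>
    le_iInf fun hk1 => ?_
  have e2 : Pool.Agent.Aub.action F γ₁ v₁ S + hT P F T y z =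
      ⨅ (γ₂ : ℝ → EuclideanSpace ℝ ι) (v₂ : ℝ → EuclideanSpace ℝ ι)
        (_ : Pool.Agent.Aub.IsCurve γ₂ v₂ T) (_ : γ₂ 0 = y)
        (_ : ∃ k : ι → ℤ, γ₂ T = z + lat P k),
        (Pool.Agent.Aub.action F γ₁ v₁ S + Pool.Agent.Aub.action F γ₂ v₂ T) := by
    conv_lhs => unfold hT
    simp only [ENNReal.add_iInf]
  rw [e2]
  exact le_iInf fun γ₂ => le_iInf fun v₂ => le_iInf fun hc2 => le_iInf fun h20 =>
    le_iInf fun hk2 => key γ₁ v₁ hc1 h10 hk1 γ₂ v₂ hc2 h20 hk2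

theorem hT_flow {ι : Type} [Fintype ι] (P : ℝ)
    {F : EuclideanSpace ℝ ι → EuclideanSpace ℝ ι} (hFc : Continuous F)
    {φ : ℝ → EuclideanSpace ℝ ι → EuclideanSpace ℝ ι} (hφ : IsFlow F φ) (T : ℝ) (hT0 : 0 ≤ T)
    (x : EuclideanSpace ℝ ι) : hT P F T x (φ T x) = 0 := by
  have hcφ : Continuous fun t => φ t x :=
    continuous_iff_continuousAt.2 fun t => (hφ.2 x t).continuousAt
  have hcF : Continuous fun t => F (φ t x) := hFc.comp hcφ
  have hact : Pool.Agent.Aub.action F (fun t => φ t x) (fun t => F (φ t x)) T = 0 := by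
    unfold Pool.Agent.Aub.action
    simp
  refine le_antisymm ?_ bot_le
  rw [← hact]
  unfold hT
  refine iInf_le_of_le (fun t => φ t x)
      (iInf_le_of_le (fun t => F (φ t x)) (iInf_le_of_le ⟨hcF.continuousOn.integrableOn_Icc, ?_⟩
        (iInf_le_of_le (hφ.1 x) (iInf_le_of_le ⟨0, ?_⟩ le_rfl))))
  · intro s _
    rw [intervalIntegral.integral_eq_sub_of_hasDerivAt (fun u _ => hφ.2 x u)
      (hcF.intervalIntegrable _ _)]
    show φ s x = φ 0 x + (φ s x - φ 0 x)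
    abel
  · rw [P10_lat_zero, add_zero]

end Pool.Agent.QA
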