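import Mathlib
import Pool.Agent.Helper961.Aub.Phys
import Pool.Agent.Helper981.QA.ELDefs

/-!
MP_7d4c8f_an, moving the end points of a curve: hT_move
-/

set_option autoImplicit false

open Set Filter Topology MeasureTheory
open scoped ContDiff

namespace Pool.Agent.QA

open Pool.Agent.Aub (lat PerField IsFlow action hT Cell zc hd run refill Dle Val base rl Vz MM mm
  Realz YY Clamp Rho LL Jx EE mkp mkz pt Ty UU)

theorem P09_le {ι : Type} [Fintype ι] {P : ℝ}
    {F : EuclideanSpace ℝ ι → EuclideanSpace ℝ ι} {T : ℝ} {x y : EuclideanSpace ℝ ι}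
    {γ v : ℝ → EuclideanSpace ℝ ι} (hc : Pool.Agent.Aub.IsCurve γ v T) (h0 : γ 0 = x)
    (hk : ∃ k : ι → ℤ, γ T = y + lat P k) : hT P F T x y ≤ action F γ v T := by
  unfold Pool.Agent.Aub.hT
  exact iInf_le_of_le γ (iInf_le_of_le v (iInf_le_of_le hc (iInf_le_of_le h0 (iInf_le _ hk))))

theorem P09_young {E : Type} [NormedAddCommGroup E] (u e : E) (s : ℝ) (hs : 0 < s) :
    ‖u + e‖ ^ 2 ≤ (1 + s) * ‖u‖ ^ 2 + (1 + 1 / s) * ‖e‖ ^ 2 := by
  have h1 : ‖u + e‖ ^ 2 ≤ (‖u‖ + ‖e‖) ^ 2 :=
    pow_le_pow_left₀ (norm_nonneg _) (norm_add_le u e) 2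
  have h2 : s * ‖u‖ ^ 2 + 1 / s * ‖e‖ ^ 2 - 2 * ‖u‖ * ‖e‖ = (s * ‖u‖ - ‖e‖) ^ 2 / s := by
    field_simp
    ring
  have h3 : 0 ≤ (s * ‖u‖ - ‖e‖) ^ 2 / s := by positivity
  nlinarith

/-- cut-off at the start -/
noncomputable def P09_c1 (t : ℝ) : ℝ := max (1 - t) 0
noncomputable def P09_d1 (t : ℝ) : ℝ := if t < 1 then -1 else 0
/-- cut-off at the end -/
noncomputable def P09_c2 (T t : ℝ) : ℝ := max (t - (T - 1)) 0
noncomputable def P09_d2 (T t : ℝ) : ℝ := if T - 1 ≤ t then 1 else 0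

theorem P09_hd1 (t : ℝ) : HasDerivWithinAt P09_c1 (P09_d1 t) (Ioi t) t := by
  unfold P09_d1
  split_ifs with h
  · have h1 : HasDerivAt (fun t : ℝ => 1 - t) (-1) t := by
      simpa using (hasDerivAt_id t).const_sub 1
    have h2 : P09_c1 =ᶠ[𝓝 t] fun t => 1 - t := by
      filter_upwards [gt_mem_nhds h] with r hr
      exact max_eq_left (by linarith)
    exact (h1.congr_of_eventuallyEq h2).hasDerivWithinAt
  · have h1 : HasDerivWithinAt (fun _ : ℝ => (0 : ℝ)) 0 (Ioi t) t := hasDerivWithinAt_const _ _ _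
    refine h1.congr (fun r hr => ?_) ?_
    · have hr' : t < r := hr
      exact max_eq_right (by linarith)
    · exact max_eq_right (by linarith)

theorem P09_hd2 (T t : ℝ) : HasDerivWithinAt (P09_c2 T) (P09_d2 T t) (Ioi t) t := by
  unfold P09_d2
  split_ifs with h
  · have h1 : HasDerivWithinAt (fun t : ℝ => t - (T - 1)) 1 (Ioi t) t := by
      simpa using ((hasDerivAt_id t).sub_const (T - 1)).hasDerivWithinAt
    refine h1.congr (fun r hr => ?_) ?_
    · have hr' : t < r := hr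
      exact max_eq_left (by linarith)
    · exact max_eq_left (by linarith)
  · have h' : t < T - 1 := not_le.1 h
    have h1 : HasDerivAt (fun _ : ℝ => (0 : ℝ)) 0 t := hasDerivAt_const _ _
    have h2 : P09_c2 T =ᶠ[𝓝 t] fun _ => 0 := by
      filter_upwards [gt_mem_nhds h'] with r hr
      exact max_eq_right (by linarith)
    exact (h1.congr_of_eventuallyEq h2).hasDerivWithinAt

theorem P09_md1 : Measurable P09_d1 :=
  Measurable.ite measurableSet_Iio measurable_const measurable_const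

theorem P09_md2 (T : ℝ) : Measurable (P09_d2 T) :=
  Measurable.ite measurableSet_Ici measurable_const measurable_const

theorem P09_curve {ι : Type} [Fintype ι] {γ v : ℝ → EuclideanSpace ℝ ι} {T : ℝ}
    (hc : Pool.Agent.Aub.IsCurve γ v T) (a b : EuclideanSpace ℝ ι) :
    Pool.Agent.Aub.IsCurve (fun t => γ t + (P09_c1 t • a + P09_c2 T t • b))
      (fun t => v t + (P09_d1 t • a + P09_d2 T t • b)) T := by
  have hb1 : ∀ t, ‖P09_d1 t • a‖ ≤ ‖a‖ := by
    intro t
    rw [norm_smul]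
    have : ‖P09_d1 t‖ ≤ 1 := by
      unfold P09_d1
      split_ifs <;> simp
    calc ‖P09_d1 t‖ * ‖a‖ ≤ 1 * ‖a‖ := mul_le_mul_of_nonneg_right this (norm_nonneg _)
      _ = ‖a‖ := one_mul _
  have hb2 : ∀ t, ‖P09_d2 T t • b‖ ≤ ‖b‖ := by
    intro t
    rw [norm_smul]
    have : ‖P09_d2 T t‖ ≤ 1 := by
      unfold P09_d2
      split_ifs <;> simp
    calc ‖P09_d2 T t‖ * ‖b‖ ≤ 1 * ‖b‖ := mul_le_mul_of_nonneg_right this (norm_nonneg _)
      _ = ‖b‖ := one_mul _
  have hint : ∀ c d : ℝ, IntegrableOn (fun t => P09_d1 t • a + P09_d2 T t • b) (Icc c d) := by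
    intro c d
    have hfin : volume (Icc c d) ≠ ⊤ := by simp
    have i1 : IntegrableOn (fun t => P09_d1 t • a) (Icc c d) := by
      refine IntegrableOn.of_bound (C := ‖a‖) hfin.lt_top
        (P09_md1.smul_const a).aestronglyMeasurable ?_
      exact Filter.Eventually.of_forall hb1
    have i2 : IntegrableOn (fun t => P09_d2 T t • b) (Icc c d) := by
      refine IntegrableOn.of_bound (C := ‖b‖) hfin.lt_top
        ((P09_md2 T).smul_const b).aestronglyMeasurable ?_
      exact Filter.Eventually.of_forall hb2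
    exact i1.add i2
  refine ⟨hc.1.add (hint 0 T), ?_⟩
  intro r hr
  have iv : IntervalIntegrable v volume 0 r := by
    rw [intervalIntegrable_iff_integrableOn_Icc_of_le hr.1]
    exact hc.1.mono_set (Icc_subset_Icc_right hr.2)
  have ie : IntervalIntegrable (fun t => P09_d1 t • a + P09_d2 T t • b) volume 0 r := by
    rw [intervalIntegrable_iff_integrableOn_Icc_of_le hr.1]
    exact hint 0 r
  have hcont : Continuous (fun t => P09_c1 t • a + P09_c2 T t • b) := by
    unfold P09_c1 P09_c2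
    fun_prop
  have hI : ∫ t in (0 : ℝ)..r, (P09_d1 t • a + P09_d2 T t • b)
      = (P09_c1 r • a + P09_c2 T r • b) - (P09_c1 0 • a + P09_c2 T 0 • b) := by
    apply intervalIntegral.integral_eq_sub_of_hasDeriv_right hcont.continuousOn
    · intro t _
      exact ((P09_hd1 t).smul_const a).add ((P09_hd2 T t).smul_const b)
    · exact ie
  rw [intervalIntegral.integral_add iv ie, hI]
  beta_reduce
  rw [hc.2 r hr]
  abel

theorem P09_point {ι : Type} [Fintype ι]
    {F : EuclideanSpace ℝ ι → EuclideanSpace ℝ ι} (K : ℝ) (hK0 : 0 < K)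
    (hK : ∀ x y, ‖F x - F y‖ ≤ K * ‖x - y‖) (T : ℝ) (hT2 : 2 ≤ T) (a b g w : EuclideanSpace ℝ ι)
    (s : ℝ) (hs : 0 < s) (t : ℝ) (ht : t ∈ Icc 0 T) :
    ENNReal.ofReal (‖w + (P09_d1 t • a + P09_d2 T t • b)
        - F (g + (P09_c1 t • a + P09_c2 T t • b))‖ ^ 2 / 2) ≤
      ENNReal.ofReal (1 + s) * ENNReal.ofReal (‖w - F g‖ ^ 2 / 2) +
      ((Iio 1).indicator (fun _ => ENNReal.ofReal ((1 + 1 / s) * (1 + K) ^ 2 * ‖a‖ ^ 2)) t +
        (Ici (T - 1)).indicator
          (fun _ => ENNReal.ofReal ((1 + 1 / s) * (1 + K) ^ 2 * ‖b‖ ^ 2)) t) := by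
  set η := P09_c1 t • a + P09_c2 T t • b with hη
  set η' := P09_d1 t • a + P09_d2 T t • b with hη'
  set e := η' - (F (g + η) - F g) with he
  have h1 : w + η' - F (g + η) = (w - F g) + e := by
    rw [he]; abel
  have he2 : ‖e‖ ≤ ‖η'‖ + K * ‖η‖ := by
    refine (norm_sub_le _ _).trans ?_
    have := hK (g + η) g
    rw [add_sub_cancel_left] at this
    linarith
  have h2 := P09_young (w - F g) e s hs
  rw [← h1] at h2
  have hs1 : 0 ≤ 1 + 1 / s := by positivity
  have hfirst : ENNReal.ofReal (‖w + η' - F (g + η)‖ ^ 2 / 2) ≤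
      ENNReal.ofReal (1 + s) * ENNReal.ofReal (‖w - F g‖ ^ 2 / 2) +
        ENNReal.ofReal ((1 + 1 / s) * ‖e‖ ^ 2) := by
    rw [← ENNReal.ofReal_mul (by positivity), ← ENNReal.ofReal_add (by positivity) (by positivity)]
    apply ENNReal.ofReal_le_ofReal
    have : 0 ≤ (1 + 1 / s) * ‖e‖ ^ 2 := by positivity
    linarith
  refine hfirst.trans (add_le_add le_rfl ?_)
  rcases lt_or_ge t 1 with hc | hc
  · -- start
    have e1 : η = (1 - t) • a := by
      rw [hη, P09_c1, P09_c2, max_eq_left (by linarith), max_eq_right (by linarith), zero_smul,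
        add_zero]
    have e2 : η' = -a := by
      rw [hη', P09_d1, P09_d2, if_pos hc, if_neg (by linarith), zero_smul, add_zero, neg_smul,
        one_smul]
    have e3 : ‖η‖ ≤ ‖a‖ := by
      rw [e1, norm_smul, Real.norm_eq_abs, abs_of_nonneg (by linarith)]
      calc (1 - t) * ‖a‖ ≤ 1 * ‖a‖ := mul_le_mul_of_nonneg_right (by linarith [ht.1])
            (norm_nonneg _)
        _ = ‖a‖ := one_mul _
    have e4 : ‖e‖ ≤ (1 + K) * ‖a‖ := by
      rw [e2, norm_neg] at he2
      nlinarith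
    rw [indicator_of_mem (show t ∈ Iio (1 : ℝ) from hc),
      indicator_of_notMem (show t ∉ Ici (T - 1) by simp only [mem_Ici, not_le]; linarith), add_zero]
    apply ENNReal.ofReal_le_ofReal
    rw [mul_assoc, ← mul_pow]
    exact mul_le_mul_of_nonneg_left (pow_le_pow_left₀ (norm_nonneg _) e4 2) hs1
  · rcases lt_or_ge t (T - 1) with hd | hd
    · -- middle
      have e1 : η = 0 := by
        rw [hη, P09_c1, P09_c2, max_eq_right (by linarith), max_eq_right (by linarith), zero_smul,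
          zero_smul, add_zero]
      have e2 : η' = 0 := by
        rw [hη', P09_d1, P09_d2, if_neg (by linarith), if_neg (by linarith), zero_smul, zero_smul,
          add_zero]
      have e4 : ‖e‖ = 0 := by
        rw [e1, e2, norm_zero, mul_zero, add_zero] at he2
        exact le_antisymm he2 (norm_nonneg _)
      rw [e4]
      simp
    · -- end
      have e1 : η = (t - (T - 1)) • b := by
        rw [hη, P09_c1, P09_c2, max_eq_right (by linarith), max_eq_left (by linarith), zero_smul,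
          zero_add]
      have e2 : η' = b := by
        rw [hη', P09_d1, P09_d2, if_neg (by linarith), if_pos hd, zero_smul, zero_add,
          one_smul]
      have e3 : ‖η‖ ≤ ‖b‖ := by
        rw [e1, norm_smul, Real.norm_eq_abs, abs_of_nonneg (by linarith)]
        calc (t - (T - 1)) * ‖b‖ ≤ 1 * ‖b‖ := mul_le_mul_of_nonneg_right (by linarith [ht.2])
              (norm_nonneg _)
          _ = ‖b‖ := one_mul _
      have e4 : ‖e‖ ≤ (1 + K) * ‖b‖ := by
        rw [e2] at he2
        nlinarith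
      rw [indicator_of_notMem (show t ∉ Iio (1 : ℝ) by simp only [mem_Iio, not_lt]; exact hc),
        indicator_of_mem (show t ∈ Ici (T - 1) from hd), zero_add]
      apply ENNReal.ofReal_le_ofReal
      rw [mul_assoc, ← mul_pow]
      exact mul_le_mul_of_nonneg_left (pow_le_pow_left₀ (norm_nonneg _) e4 2) hs1

theorem hT_move {ι : Type} [Fintype ι] (P : ℝ)
    {F : EuclideanSpace ℝ ι → EuclideanSpace ℝ ι} (hFc : Continuous F) (K : ℝ) (hK0 : 0 < K)
    (hK : ∀ x y, ‖F x - F y‖ ≤ K * ‖x - y‖) (T : ℝ) (hT2 : 2 ≤ T)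
    (x y x' y' : EuclideanSpace ℝ ι) (s : ℝ) (hs : 0 < s) :
    hT P F T x' y' ≤ ENNReal.ofReal (1 + s) * hT P F T x y +
      ENNReal.ofReal ((1 + 1 / s) * (1 + K) ^ 2 * (‖x - x'‖ ^ 2 + ‖y - y'‖ ^ 2)) := by
  have hr0 : ENNReal.ofReal (1 + s) ≠ 0 := by
    rw [Ne, ENNReal.ofReal_eq_zero, not_le]
    linarith
  have hrt : ENNReal.ofReal (1 + s) ≠ ⊤ := ENNReal.ofReal_ne_top
  set D := ENNReal.ofReal ((1 + 1 / s) * (1 + K) ^ 2 * (‖x - x'‖ ^ 2 + ‖y - y'‖ ^ 2)) with hD
  have key : ∀ (γ v : ℝ → EuclideanSpace ℝ ι), Pool.Agent.Aub.IsCurve γ v T → γ 0 = x →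
      (∃ k : ι → ℤ, γ T = y + lat P k) →
      hT P F T x' y' ≤ ENNReal.ofReal (1 + s) * action F γ v T + D := by
    intro γ v hc h0 hk
    obtain ⟨k, hk⟩ := hk
    have hc' := P09_curve hc (x' - x) (y' - y)
    refine (P09_le hc' ?_ ⟨k, ?_⟩).trans ?_
    · change γ 0 + (P09_c1 0 • (x' - x) + P09_c2 T 0 • (y' - y)) = x'
      rw [P09_c1, P09_c2, max_eq_left (by norm_num), max_eq_right (by linarith), h0]
      simp
    · change γ T + (P09_c1 T • (x' - x) + P09_c2 T T • (y' - y)) = y' + lat P k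
      rw [P09_c1, P09_c2, max_eq_right (by linarith), max_eq_left (by linarith), hk]
      rw [show T - (T - 1) = 1 by ring, one_smul, zero_smul, zero_add]
      abel
    · unfold Pool.Agent.Aub.action
      have hpt := setLIntegral_mono' (μ := volume) (measurableSet_Icc (a := (0 : ℝ)) (b := T))
        (fun t ht => P09_point K hK0 hK T hT2 (x' - x) (y' - y) (γ t) (v t) s hs t ht)
      refine hpt.trans ?_
      have hm1 : Measurable ((Iio (1 : ℝ)).indicator
          (fun _ => ENNReal.ofReal ((1 + 1 / s) * (1 + K) ^ 2 * ‖x' - x‖ ^ 2))) :=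
        measurable_const.indicator measurableSet_Iio
      have hm2 : Measurable ((Ici (T - 1)).indicator
          (fun _ => ENNReal.ofReal ((1 + 1 / s) * (1 + K) ^ 2 * ‖y' - y‖ ^ 2))) :=
        measurable_const.indicator measurableSet_Ici
      have hm12 : Measurable (fun t : ℝ => (Iio (1 : ℝ)).indicator
          (fun _ => ENNReal.ofReal ((1 + 1 / s) * (1 + K) ^ 2 * ‖x' - x‖ ^ 2)) t +
          (Ici (T - 1)).indicator
          (fun _ => ENNReal.ofReal ((1 + 1 / s) * (1 + K) ^ 2 * ‖y' - y‖ ^ 2)) t) := hm1.add hm2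
      rw [lintegral_add_right _ hm12, lintegral_const_mul' _ _ hrt,
        lintegral_add_right _ hm2, lintegral_indicator_const measurableSet_Iio,
        lintegral_indicator_const measurableSet_Ici]
      refine add_le_add le_rfl ?_
      have v1 : (volume.restrict (Icc (0 : ℝ) T)) (Iio 1) ≤ 1 := by
        rw [Measure.restrict_apply measurableSet_Iio]
        refine (measure_mono (t := Icc (0 : ℝ) 1) ?_).trans ?_
        · rintro r ⟨hr1, hr2⟩
          exact ⟨hr2.1, le_of_lt hr1⟩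
        · simp
      have v2 : (volume.restrict (Icc (0 : ℝ) T)) (Ici (T - 1)) ≤ 1 := by
        rw [Measure.restrict_apply measurableSet_Ici]
        refine (measure_mono (t := Icc (T - 1) T) ?_).trans ?_
        · rintro r ⟨hr1, hr2⟩
          exact ⟨hr1, hr2.2⟩
        · simp
      have hs1 : 0 ≤ (1 + 1 / s) * (1 + K) ^ 2 := by positivity
      calc ENNReal.ofReal ((1 + 1 / s) * (1 + K) ^ 2 * ‖x' - x‖ ^ 2) *
            (volume.restrict (Icc (0 : ℝ) T)) (Iio 1) +
          ENNReal.ofReal ((1 + 1 / s) * (1 + K) ^ 2 * ‖y' - y‖ ^ 2) *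
            (volume.restrict (Icc (0 : ℝ) T)) (Ici (T - 1))
          ≤ ENNReal.ofReal ((1 + 1 / s) * (1 + K) ^ 2 * ‖x' - x‖ ^ 2) * 1 +
            ENNReal.ofReal ((1 + 1 / s) * (1 + K) ^ 2 * ‖y' - y‖ ^ 2) * 1 :=
            add_le_add (mul_le_mul_right v1 _) (mul_le_mul_right v2 _)
        _ = D := by
            rw [mul_one, mul_one, ← ENNReal.ofReal_add (by positivity) (by positivity), hD,
              norm_sub_rev x x', norm_sub_rev y y']
            congr 1
            ring
  rw [← tsub_le_iff_right, mul_comm, ← ENNReal.div_le_iff hr0 hrt]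
  unfold Pool.Agent.Aub.hT
  refine le_iInf fun γ => le_iInf fun v => le_iInf fun hc => le_iInf fun h0 => le_iInf fun hk => ?_
  rw [ENNReal.div_le_iff hr0 hrt, mul_comm, tsub_le_iff_right]
  exact key γ v hc h0 hk

end Pool.Agent.QA
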