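import Mathlib
import Pool.Agent.Helper961.Aub.Phys
import Pool.Agent.Helper981.QA.ELDefs
import Pool.Agent.Helper981.QA.P08
import Pool.Agent.Helper981.QA.P09
import Pool.Agent.Helper981.QA.P10

/-!
MP_7d4c8f_an, uniform bound of hT: hT_bound
-/

set_option autoImplicit false

open Set Filter Topology MeasureTheory
open scoped ContDiff

namespace Pool.Agent.QA

open Pool.Agent.Aub (lat PerField IsFlow action hT Cell zc hd run refill Dle Val base rl Vz MM mm
  Realz YY Clamp Rho LL Jx EE mkp mkz pt Ty UU)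

theorem hT_bound {ι : Type} [Fintype ι] {P : ℝ} (hP : 0 < P)
    {F : EuclideanSpace ℝ ι → EuclideanSpace ℝ ι} (hs : ContDiff ℝ ∞ F) (hF : PerField P F)
    {φ : ℝ → EuclideanSpace ℝ ι → EuclideanSpace ℝ ι} (hφ : IsFlow F φ) :
    ∃ C : ℝ, 0 ≤ C ∧ ∀ (T : ℝ), 2 ≤ T → ∀ x y, hT P F T x y ≤ ENNReal.ofReal C := by
  obtain ⟨K, B, hK, hB, hLip, -⟩ := gen_flow hP hs hF hφ
  have hFc : Continuous F := hs.continuous
  refine ⟨(1 + 1 / 1) * (1 + K) ^ 2 * (0 + (P * Real.sqrt (Fintype.card ι)) ^ 2), by positivity, ?_⟩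
  intro T hT2 x y
  have hT0 : 0 ≤ T := by linarith
  let k : ι → ℤ := fun i => ⌊(φ T x i - y i) / P⌋
  have hround : ‖φ T x - (y + lat P k)‖ ≤ P * Real.sqrt (Fintype.card ι) := by
    rw [EuclideanSpace.norm_eq]
    have h1 : ∑ i, ‖(φ T x - (y + lat P k)) i‖ ^ 2 ≤ (Fintype.card ι) * P ^ 2 := by
      have h2 : ∀ i ∈ (Finset.univ : Finset ι), ‖(φ T x - (y + lat P k)) i‖ ^ 2 ≤ P ^ 2 := by
        intro i _
        have e : (φ T x - (y + lat P k)) i = (φ T x i - y i) - P * (k i : ℝ) := by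
          show φ T x i - (y i + P * (k i : ℝ)) = _
          ring
        have f1 : (k i : ℝ) ≤ (φ T x i - y i) / P := Int.floor_le _
        have f2 : (φ T x i - y i) / P < (k i : ℝ) + 1 := Int.lt_floor_add_one _
        rw [le_div_iff₀ hP] at f1
        rw [div_lt_iff₀ hP] at f2
        rw [e, Real.norm_eq_abs, sq_abs]
        have g1 : 0 ≤ (φ T x i - y i) - P * (k i : ℝ) := by linarith
        have g2 : (φ T x i - y i) - P * (k i : ℝ) ≤ P := by linarith
        exact pow_le_pow_left₀ g1 g2 2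
      have := Finset.sum_le_card_nsmul _ _ _ h2
      rwa [Finset.card_univ, nsmul_eq_mul] at this
    refine (Real.sqrt_le_sqrt h1).trans (le_of_eq ?_)
    rw [Real.sqrt_mul (by positivity), Real.sqrt_sq hP.le, mul_comm]
  have hmove := hT_move P hFc K hK hLip T hT2 x (φ T x) x (y + lat P k) 1 one_pos
  rw [hT_flow P hFc hφ T hT0 x, mul_zero, zero_add, sub_self, norm_zero] at hmove
  have hlat := hT_lat P hF T hT0 x y 0 k
  have hz : x + lat P (0 : ι → ℤ) = x := by
    ext i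
    show x i + P * ((0 : ι → ℤ) i : ℝ) = x i
    simp
  rw [hz] at hlat
  rw [← hlat]
  refine hmove.trans (ENNReal.ofReal_le_ofReal ?_)
  have h3 : ‖φ T x - (y + lat P k)‖ ^ 2 ≤ (P * Real.sqrt (Fintype.card ι)) ^ 2 :=
    pow_le_pow_left₀ (norm_nonneg _) hround 2
  have h4 : (0 : ℝ) ≤ (1 + 1 / 1) * (1 + K) ^ 2 := by positivity
  refine mul_le_mul_of_nonneg_left ?_ h4
  have h5 : (0 : ℝ) ^ 2 = 0 := by norm_num
  rw [h5]
  linarith

end Pool.Agent.QA
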