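import Mathlib
import Pool.Agent.Helper961.Aub.Phys
import Pool.Agent.Helper981.QA.ELDefs
import Pool.Agent.Helper981.QA.P01
import Pool.Agent.Helper981.QA.P02
import Pool.Agent.Helper981.QA.P10
import Pool.Agent.Helper981.QA.P11

/-!
MP_7d4c8f_an, real h^n versus hT, barrier versus bN: hn_eq, barrier_eq
-/

set_option autoImplicit false

open Set Filter Topology MeasureTheory
open scoped ContDiff

namespace Pool.Agent.QA

open Pool.Agent.Aub (lat PerField IsFlow action hT Cell zc hd run refill Dle Val base rl Vz MM mm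
  Realz YY Clamp Rho LL Jx EE mkp mkz pt Ty UU)

theorem P12_Lc {ι : Type} [Fintype ι] (P : ℝ) [Fact (0 < P)]
    {F : EuclideanSpace ℝ ι → EuclideanSpace ℝ ι} (hF : PerField P F)
    (γ v : ℝ → EuclideanSpace ℝ ι) :
    (fun t => Lc P (LF P F) 0 0 (cov P (γ t) (v t) t)) = fun t => ‖v t - F (γ t)‖ ^ 2 / 2 := by
  funext t
  unfold Lc
  rw [LF_cov P hF]
  simp

theorem P12_act {ι : Type} [Fintype ι] {F : EuclideanSpace ℝ ι → EuclideanSpace ℝ ι} (n : ℕ)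
    (γ v : ℝ → EuclideanSpace ℝ ι)
    (hg : IntegrableOn (fun t => ‖v t - F (γ t)‖ ^ 2 / 2) (Icc 0 (n:ℝ))) :
    action F γ v n = ENNReal.ofReal (∫ t in (0:ℝ)..n, ‖v t - F (γ t)‖ ^ 2 / 2) := by
  rw [intervalIntegral.integral_of_le (Nat.cast_nonneg n), ← integral_Icc_eq_integral_Ioc,
    ofReal_integral_eq_lintegral_ofReal hg (Eventually.of_forall (fun t => by positivity))]
  rfl

theorem P12_int {ι : Type} [Fintype ι] {F : EuclideanSpace ℝ ι → EuclideanSpace ℝ ι}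
    (hFc : Continuous F) (n : ℕ) (γ v : ℝ → EuclideanSpace ℝ ι)
    (hc : IntegrableOn v (Icc 0 (n:ℝ)) ∧ ∀ s ∈ Icc (0 : ℝ) n, γ s = γ 0 + ∫ u in (0 : ℝ)..s, v u)
    (h : action F γ v n < ⊤) :
    IntegrableOn (fun t => ‖v t - F (γ t)‖ ^ 2 / 2) (Icc 0 (n:ℝ)) := by
  have hn0 : (0:ℝ) ≤ n := Nat.cast_nonneg n
  have h1 : ContinuousOn (fun s => ∫ u in (0:ℝ)..s, v u) (Icc 0 (n:ℝ)) := by
    have h0 := intervalIntegral.continuousOn_primitive_interval (f := v) (a := 0) (b := (n:ℝ))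
      (μ := volume) (by rw [uIcc_of_le hn0]; exact hc.1)
    rwa [uIcc_of_le hn0] at h0
  have h2 : ContinuousOn γ (Icc 0 (n:ℝ)) := (continuousOn_const.add h1).congr (fun s hs => hc.2 s hs)
  have h3 : ContinuousOn (fun t => F (γ t)) (Icc 0 (n:ℝ)) := hFc.comp_continuousOn h2
  have h4 : AEStronglyMeasurable (fun t => ‖v t - F (γ t)‖ ^ 2 / 2) (volume.restrict (Icc 0 (n:ℝ))) := by
    have h5 := hc.1.aestronglyMeasurable.sub (h3.aestronglyMeasurable measurableSet_Icc)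
    have h6 := (h5.norm.pow 2).mul_const (1/2)
    refine h6.congr (Eventually.of_forall (fun t => ?_))
    show ‖v t - F (γ t)‖ ^ 2 * (1/2) = ‖v t - F (γ t)‖ ^ 2 / 2
    ring
  refine ⟨h4, ?_⟩
  rw [hasFiniteIntegral_iff_ofReal (Eventually.of_forall (fun t => by positivity))]
  exact h

theorem P12_mem {ι : Type} [Fintype ι] (P : ℝ) [Fact (0 < P)]
    {F : EuclideanSpace ℝ ι → EuclideanSpace ℝ ι} (hFc : Continuous F) (hF : PerField P F)
    (n : ℕ) (x y : EuclideanSpace ℝ ι) (γ v : ℝ → EuclideanSpace ℝ ι)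
    (hc : Pool.Agent.Aub.IsCurve γ v n) (h0 : γ 0 = x) (h1 : ∃ k : ι → ℤ, γ n = y + lat P k)
    (hf : action F γ v n ≠ ⊤) :
    (action F γ v n).toReal ∈ {A : ℝ | ∃ γ v : ℝ → EuclideanSpace ℝ ι, IsCurve γ v n ∧
      prj P (γ 0) = prj P x ∧ prj P (γ n) = prj P y ∧
      IntegrableOn (fun t => Lc P (LF P F) 0 0 (cov P (γ t) (v t) t)) (Icc 0 (n : ℝ)) ∧
      A = ∫ t in (0 : ℝ)..n, Lc P (LF P F) 0 0 (cov P (γ t) (v t) t)} := by
  have hg := P12_int hFc n γ v hc (lt_top_iff_ne_top.2 hf)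
  refine ⟨γ, v, hc, by rw [h0], (prj_eq_iff P _ _).2 h1, ?_, ?_⟩
  · rw [P12_Lc P hF]
    exact hg
  · rw [P12_Lc P hF, P12_act n γ v hg, ENNReal.toReal_ofReal]
    exact intervalIntegral.integral_nonneg (Nat.cast_nonneg n) (fun t _ => by positivity)

theorem P12_lb {ι : Type} [Fintype ι] (P : ℝ) [Fact (0 < P)]
    {F : EuclideanSpace ℝ ι → EuclideanSpace ℝ ι} (hF : PerField P F)
    (n : ℕ) (x y : EuclideanSpace ℝ ι) (A : ℝ)
    (hA : A ∈ {A : ℝ | ∃ γ v : ℝ → EuclideanSpace ℝ ι, IsCurve γ v n ∧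
      prj P (γ 0) = prj P x ∧ prj P (γ n) = prj P y ∧
      IntegrableOn (fun t => Lc P (LF P F) 0 0 (cov P (γ t) (v t) t)) (Icc 0 (n : ℝ)) ∧
      A = ∫ t in (0 : ℝ)..n, Lc P (LF P F) 0 0 (cov P (γ t) (v t) t)}) :
    0 ≤ A ∧ (hT P F n x y).toReal ≤ A := by
  obtain ⟨γ, v, hc, h0, h1, hi, rfl⟩ := hA
  rw [P12_Lc P hF] at hi ⊢
  have hA0 : 0 ≤ ∫ t in (0:ℝ)..n, ‖v t - F (γ t)‖ ^ 2 / 2 :=
    intervalIntegral.integral_nonneg (Nat.cast_nonneg n) (fun t _ => by positivity)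
  refine ⟨hA0, ENNReal.toReal_le_of_le_ofReal hA0 ?_⟩
  rw [← P12_act n γ v hi]
  obtain ⟨k, hk⟩ := (prj_eq_iff P _ _).1 h0
  obtain ⟨m, hm⟩ := (prj_eq_iff P _ _).1 h1
  rw [← hT_lat P hF (n:ℝ) (Nat.cast_nonneg n) x y k m, ← hk, ← hm]
  unfold hT
  refine iInf_le_of_le γ (iInf_le_of_le v (iInf_le_of_le hc (iInf_le_of_le rfl
    (iInf_le_of_le ⟨0, ?_⟩ le_rfl))))
  have e : lat P (0 : ι → ℤ) = 0 := by
    ext i
    simp [lat]
  rw [e, add_zero]

theorem hn_eq {ι : Type} [Fintype ι] (P : ℝ) [Fact (0 < P)]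
    {F : EuclideanSpace ℝ ι → EuclideanSpace ℝ ι} (hFc : Continuous F) (hF : PerField P F)
    (n : ℕ) (x y : EuclideanSpace ℝ ι) (h : hT P F n x y ≠ ⊤) :
    ((hn P (LF P F) 0 0 n (prj P x) (prj P y) : ℝ) : EReal) = ((hT P F n x y : ENNReal) : EReal) := by
  rw [← EReal.coe_ennreal_toReal h]
  congr 1
  unfold hn
  have hmem := fun γ v hc h0 h1 hf => P12_mem P hFc hF n x y γ v hc h0 h1 hf
  have hlb := fun A hA => P12_lb P hF n x y A hA
  set Sg : Set ℝ := {A : ℝ | ∃ γ v : ℝ → EuclideanSpace ℝ ι, IsCurve γ v n ∧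
      prj P (γ 0) = prj P x ∧ prj P (γ n) = prj P y ∧
      IntegrableOn (fun t => Lc P (LF P F) 0 0 (cov P (γ t) (v t) t)) (Icc 0 (n : ℝ)) ∧
      A = ∫ t in (0 : ℝ)..n, Lc P (LF P F) 0 0 (cov P (γ t) (v t) t)} with hSg
  have hne : Sg.Nonempty := by
    by_contra hcon
    apply h
    unfold hT
    rw [eq_top_iff]
    refine le_iInf fun γ => le_iInf fun v => le_iInf fun hc => le_iInf fun h0 => le_iInf fun h1 => ?_
    by_contra hf
    exact hcon ⟨_, hmem γ v hc h0 h1 (fun he => hf (le_of_eq he.symm))⟩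
  apply le_antisymm
  · rw [← ENNReal.ofReal_le_iff_le_toReal h]
    unfold hT
    refine le_iInf fun γ => le_iInf fun v => le_iInf fun hc => le_iInf fun h0 => le_iInf fun h1 => ?_
    by_cases hf : action F γ v n = ⊤
    · rw [hf]; exact le_top
    · rw [ENNReal.ofReal_le_iff_le_toReal hf]
      exact csInf_le ⟨0, fun A hA => (hlb A hA).1⟩ (hmem γ v hc h0 h1 hf)
  · exact le_csInf hne (fun A hA => (hlb A hA).2)

theorem barrier_eq {ι : Type} [Fintype ι] (P : ℝ) [Fact (0 < P)]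
    {F : EuclideanSpace ℝ ι → EuclideanSpace ℝ ι} (hs : ContDiff ℝ ∞ F) (hF : PerField P F)
    {φ : ℝ → EuclideanSpace ℝ ι → EuclideanSpace ℝ ι} (hφ : IsFlow F φ)
    (x y : EuclideanSpace ℝ ι) :
    barrier P (LF P F) 0 0 (prj P x) (prj P y) = ((bN P F x y : ENNReal) : EReal) := by
  obtain ⟨C, hC0, hC⟩ := hT_bound (Fact.out : 0 < P) hs hF hφ
  unfold barrier bN
  have hmono : Monotone (fun z : ENNReal => (z : EReal)) :=
    fun a b hab => EReal.coe_ennreal_le_coe_ennreal_iff.2 hab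
  have h1 := hmono.map_liminf_of_continuousAt (F := atTop) (fun n : ℕ => hT P F n x y)
    continuous_coe_ennreal_ereal.continuousAt
  have h2 : ((liminf (fun n : ℕ => hT P F n x y) atTop : ENNReal) : EReal) =
      liminf (fun n : ℕ => ((hT P F n x y : ENNReal) : EReal)) atTop := h1
  rw [h2]
  refine liminf_congr ?_
  filter_upwards [eventually_ge_atTop 2] with n hn2
  refine hn_eq P hs.continuous hF n x y ?_
  have h3 : (2:ℝ) ≤ n := by exact_mod_cast hn2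
  exact ne_top_of_le_ne_top ENNReal.ofReal_ne_top (hC n h3 x y)

end Pool.Agent.QA
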