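import Mathlib
import Pool.Agent.Helper961.Aub.Phys
import Pool.Agent.Helper981.QA.ELDefs
import Pool.Agent.Helper981.QA.P09
import Pool.Agent.Helper981.QA.P10
import Pool.Agent.Helper981.QA.P11

/-!
MP_7d4c8f_an, properties of bN: bN_bound, bN_tri, bN_lat, bN_move
-/

set_option autoImplicit false

open Set Filter Topology MeasureTheory
open scoped ContDiff

namespace Pool.Agent.QA

open Pool.Agent.Aub (lat PerField IsFlow action hT Cell zc hd run refill Dle Val base rl Vz MM mm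
  Realz YY Clamp Rho LL Jx EE mkp mkz pt Ty UU)

theorem bN_bound {ι : Type} [Fintype ι] {P : ℝ} (hP : 0 < P)
    {F : EuclideanSpace ℝ ι → EuclideanSpace ℝ ι} (hs : ContDiff ℝ ∞ F) (hF : PerField P F)
    {φ : ℝ → EuclideanSpace ℝ ι → EuclideanSpace ℝ ι} (hφ : IsFlow F φ)
    (x y : EuclideanSpace ℝ ι) : bN P F x y ≠ ⊤ := by
  obtain ⟨C, hC0, hC⟩ := hT_bound hP hs hF hφ
  have h1 : bN P F x y ≤ ENNReal.ofReal C := by
    unfold bN
    apply Filter.liminf_le_of_frequently_le'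
    apply Filter.Eventually.frequently
    filter_upwards [eventually_ge_atTop 2] with n hn
    exact hC n (by exact_mod_cast hn) x y
  exact ne_top_of_le_ne_top ENNReal.ofReal_ne_top h1

theorem P13_freq {u : ℕ → ENNReal} (h : liminf u atTop ≠ ⊤) {ε : ENNReal} (hε : ε ≠ 0) :
    ∃ᶠ n in atTop, u n < liminf u atTop + ε :=
  Filter.frequently_lt_of_liminf_lt (by isBoundedDefault) (ENNReal.lt_add_right h hε)

theorem bN_tri {ι : Type} [Fintype ι] {P : ℝ}
    {F : EuclideanSpace ℝ ι → EuclideanSpace ℝ ι} (hF : PerField P F)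
    (x y z : EuclideanSpace ℝ ι) : bN P F x z ≤ bN P F x y + bN P F y z := by
  apply ENNReal.le_of_forall_pos_le_add
  intro ε hε hb
  rw [ENNReal.add_lt_top] at hb
  have hε2 : ((ε : ENNReal) / 2) ≠ 0 := by
    rw [Ne, ENNReal.div_eq_zero_iff]
    rintro (h | h)
    · exact hε.ne' (by exact_mod_cast h)
    · exact ENNReal.ofNat_ne_top h
  have h1 := P13_freq (u := fun n : ℕ => hT P F n x y) hb.1.ne hε2
  have h2 := P13_freq (u := fun n : ℕ => hT P F n y z) hb.2.ne hε2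
  unfold bN
  apply Filter.liminf_le_of_frequently_le'
  rw [Filter.frequently_atTop]
  intro N
  obtain ⟨m, hm, hm1⟩ := Filter.frequently_atTop.1 h1 N
  obtain ⟨n, hn, hn1⟩ := Filter.frequently_atTop.1 h2 0
  refine ⟨m + n, by omega, ?_⟩
  have h3 := hT_concat P hF (m : ℝ) (n : ℝ) (Nat.cast_nonneg m) (Nat.cast_nonneg n) x y z
  have h4 : (((m + n : ℕ)) : ℝ) = (m : ℝ) + n := Nat.cast_add m n
  rw [h4]
  refine (h3.trans (add_le_add hm1.le hn1.le)).trans (le_of_eq ?_)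
  rw [add_add_add_comm, ENNReal.add_halves]

theorem bN_lat {ι : Type} [Fintype ι] {P : ℝ}
    {F : EuclideanSpace ℝ ι → EuclideanSpace ℝ ι} (hF : PerField P F)
    (x y : EuclideanSpace ℝ ι) (k m : ι → ℤ) :
    bN P F (x + lat P k) (y + lat P m) = bN P F x y := by
  unfold bN
  congr 1
  funext n
  exact hT_lat P hF n (Nat.cast_nonneg n) x y k m

theorem bN_move {ι : Type} [Fintype ι] {P : ℝ}
    {F : EuclideanSpace ℝ ι → EuclideanSpace ℝ ι} (hFc : Continuous F) (K : ℝ) (hK0 : 0 < K)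
    (hK : ∀ x y, ‖F x - F y‖ ≤ K * ‖x - y‖)
    (x y x' y' : EuclideanSpace ℝ ι) (s : ℝ) (hs : 0 < s) :
    bN P F x' y' ≤ ENNReal.ofReal (1 + s) * bN P F x y +
      ENNReal.ofReal ((1 + 1 / s) * (1 + K) ^ 2 * (‖x - x'‖ ^ 2 + ‖y - y'‖ ^ 2)) := by
  obtain ⟨c, hc⟩ : ∃ c, c = ENNReal.ofReal (1 + s) := ⟨_, rfl⟩
  obtain ⟨d, hd⟩ : ∃ d, d = ENNReal.ofReal ((1 + 1 / s) * (1 + K) ^ 2 * (‖x - x'‖ ^ 2 + ‖y - y'‖ ^ 2)) := ⟨_, rfl⟩
  have hc0 : c ≠ 0 := by
    rw [hc, Ne, ENNReal.ofReal_eq_zero]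
    linarith
  have hct : c ≠ ⊤ := by rw [hc]; exact ENNReal.ofReal_ne_top
  have hmove : ∀ n : ℕ, 2 ≤ n → hT P F n x' y' ≤ c * hT P F n x y + d := by
    intro n hn
    rw [hc, hd]
    exact hT_move P hFc K hK0 hK n (by exact_mod_cast hn) x y x' y' s hs
  rw [← hc, ← hd]
  apply ENNReal.le_of_forall_pos_le_add
  intro ε hε hb
  have hb1 : bN P F x y ≠ ⊤ := by
    intro h
    rw [h, ENNReal.mul_top hc0, top_add] at hb
    exact lt_irrefl _ hb
  have hε2 : ((ε : ENNReal) / c) ≠ 0 := by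
    rw [Ne, ENNReal.div_eq_zero_iff]
    rintro (h | h)
    · exact hε.ne' (by exact_mod_cast h)
    · exact hct h
  have h1 := P13_freq (u := fun n : ℕ => hT P F n x y) hb1 hε2
  have h2 : bN P F x' y' ≤ c * (bN P F x y + ε / c) + d := by
    unfold bN
    apply Filter.liminf_le_of_frequently_le'
    refine (h1.and_eventually (eventually_ge_atTop 2)).mono ?_
    rintro n ⟨hn1, hn2⟩
    refine (hmove n hn2).trans ?_
    gcongr
  refine h2.trans (le_of_eq ?_)
  rw [mul_add, ENNReal.mul_div_cancel hc0 hct]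
  ring

end Pool.Agent.QA
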