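import Mathlib
import Pool.Agent.Helper961.Aub.Phys
import Pool.Agent.Helper981.QA.ELDefs
import Pool.Agent.Helper981.QA.P01
import Pool.Agent.Helper981.QA.P12
import Pool.Agent.Helper981.QA.P13

/-!
MP_7d4c8f_an, the quotient Aubry space: aubry_space
-/

set_option autoImplicit false

open Set Filter Topology MeasureTheory
open scoped ContDiff

namespace Pool.Agent.QA

open Pool.Agent.Aub (lat PerField IsFlow action hT Cell zc hd run refill Dle Val base rl Vz MM mm
  Realz YY Clamp Rho LL Jx EE mkp mkz pt Ty UU)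

theorem P15_ofPseudo (A : Type) (d : A → A → ℝ) (h0 : ∀ x, d x x = 0) (hc : ∀ x y, d x y = d y x)
    (ht : ∀ x y z, d x z ≤ d x y + d y z) :
    ∃ (X : Type) (_ : MetricSpace X) (π : A → X), Function.Surjective π ∧
      ∀ x y : A, dist (π x) (π y) = d x y := by
  letI : PseudoMetricSpace A :=
    { dist := d
      dist_self := h0
      dist_comm := hc
      dist_triangle := ht }
  exact ⟨SeparationQuotient A, inferInstance, SeparationQuotient.mk,
    SeparationQuotient.surjective_mk, fun x y => SeparationQuotient.dist_mk x y⟩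

theorem aubry_space {ι : Type} [Fintype ι] (P : ℝ) [Fact (0 < P)]
    {F : EuclideanSpace ℝ ι → EuclideanSpace ℝ ι} (hs : ContDiff ℝ ∞ F) (hF : PerField P F)
    {φ : ℝ → EuclideanSpace ℝ ι → EuclideanSpace ℝ ι} (hφ : IsFlow F φ) :
    ∃ (X : Type) (_ : MetricSpace X) (π : AubrySet P (LF P F) 0 0 → X),
      Function.Surjective π ∧
      ∀ x y : AubrySet P (LF P F) 0 0, ((dist (π x) (π y) : ℝ) : EReal) =
        barrier P (LF P F) 0 0 x y + barrier P (LF P F) 0 0 y x := by
  have hP : 0 < P := Fact.out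
  have hb : ∀ x y : Torus P ι, barrier P (LF P F) 0 0 x y =
      ((bN P F (lft P x) (lft P y) : ENNReal) : EReal) := by
    intro x y
    rw [← barrier_eq P hs hF hφ, prj_lft, prj_lft]
  have hfin : ∀ x y : Torus P ι, bN P F (lft P x) (lft P y) ≠ ⊤ :=
    fun x y => bN_bound hP hs hF hφ _ _
  obtain ⟨X, hX, π, hsurj, hd⟩ := P15_ofPseudo (AubrySet P (LF P F) 0 0)
    (fun x y => (bN P F (lft P (x : Torus P ι)) (lft P (y : Torus P ι)) +
      bN P F (lft P (y : Torus P ι)) (lft P (x : Torus P ι))).toReal)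
    (by
      intro x
      have h1 : barrier P (LF P F) 0 0 (x : Torus P ι) (x : Torus P ι) = 0 := x.2
      rw [hb] at h1
      have h2 : bN P F (lft P (x : Torus P ι)) (lft P (x : Torus P ι)) = 0 := by
        exact_mod_cast h1
      simp only [h2, add_zero, ENNReal.toReal_zero])
    (by
      intro x y
      beta_reduce
      rw [add_comm])
    (by
      intro x y z
      beta_reduce
      rw [← ENNReal.toReal_add (ENNReal.add_ne_top.2 ⟨hfin _ _, hfin _ _⟩)
        (ENNReal.add_ne_top.2 ⟨hfin _ _, hfin _ _⟩)]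
      apply ENNReal.toReal_mono
      · exact ENNReal.add_ne_top.2 ⟨ENNReal.add_ne_top.2 ⟨hfin _ _, hfin _ _⟩,
          ENNReal.add_ne_top.2 ⟨hfin _ _, hfin _ _⟩⟩
      · calc _ ≤ (bN P F (lft P (x : Torus P ι)) (lft P (y : Torus P ι)) +
              bN P F (lft P (y : Torus P ι)) (lft P (z : Torus P ι))) +
            (bN P F (lft P (z : Torus P ι)) (lft P (y : Torus P ι)) +
              bN P F (lft P (y : Torus P ι)) (lft P (x : Torus P ι))) :=
              add_le_add (bN_tri hF _ _ _) (bN_tri hF _ _ _)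
          _ = _ := by ring)
  refine ⟨X, hX, π, hsurj, fun x y => ?_⟩
  rw [hd, hb, hb, EReal.coe_ennreal_toReal (ENNReal.add_ne_top.2 ⟨hfin _ _, hfin _ _⟩),
    EReal.coe_ennreal_add]

end Pool.Agent.QA
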