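import Mathlib
import Pool.Agent.Helper961.Aub.Phys
import Pool.Agent.Helper981.QA.ELDefs

/-!
MP_7d4c8f_an, dimension of a space containing an expanded interval: dim_of_path 
-/

set_option autoImplicit false

open Set Filter Topology MeasureTheory
open scoped ContDiff

namespace Pool.Agent.QA

open Pool.Agent.Aub (lat PerField IsFlow action hT Cell zc hd run refill Dle Val base rl Vz MM mm
  Realz YY Clamp Rho LL Jx EE mkp mkz pt Ty UU)

theorem dim_of_path {X : Type} [MetricSpace X] (f : Icc (0 : ℝ) 1 → X) (C : ℝ) (hC : 0 < C)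
    (h : ∀ s t : Icc (0 : ℝ) 1, |(s : ℝ) - t| ≤ C * dist (f s) (f t)) : 1 ≤ dimH (Set.univ : Set X) := by
  have ha : AntilipschitzWith ⟨C, hC.le⟩ f := by
    refine AntilipschitzWith.of_le_mul_dist fun s t => ?_
    exact h s t
  have h1 : dimH (Set.univ : Set (Icc (0 : ℝ) 1)) = 1 := by
    have h2 : dimH ((Subtype.val : Icc (0 : ℝ) 1 → ℝ) '' Set.univ) = dimH (Set.univ : Set (Icc (0 : ℝ) 1)) :=
      Isometry.dimH_image isometry_subtype_coe _
    rw [← h2, Set.image_univ, Subtype.range_coe, Real.dimH_of_nonempty_interior]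
    · simp
    · rw [interior_Icc]; exact ⟨1/2, by norm_num, by norm_num⟩
  calc (1 : ENNReal) = dimH (Set.univ : Set (Icc (0 : ℝ) 1)) := h1.symm
    _ ≤ dimH (f '' Set.univ) := ha.le_dimH_image _
    _ ≤ _ := dimH_mono (Set.subset_univ _)

end Pool.Agent.QA
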