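import Mathlib
import Pool.Agent.Helper961.Aub.Phys
import Pool.Agent.Helper981.QA.ELDefs

/-!
MP_7d4c8f_an, vN versus val: vN_val, val_range, good_facts, val_dense 
-/

set_option autoImplicit false

open Set Filter Topology MeasureTheory
open scoped ContDiff

namespace Pool.Agent.QA

open Pool.Agent.Aub (lat PerField IsFlow action hT Cell zc hd run refill Dle Val base rl Vz MM mm
  Realz YY Clamp Rho LL Jx EE mkp mkz pt Ty UU)

theorem P18_MMpos : (0 : ℝ) < MM := by unfold Pool.Agent.Aub.MM; norm_num

theorem P18_Vz (D : Fin 3 → ℕ) : Vz (fun k => (D k : ℤ)) = 16777216 * (D 0 : ℝ) + 4096 * (D 1 : ℝ) + D 2 := by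
  unfold Pool.Agent.Aub.Vz Pool.Agent.Aub.mm
  push_cast
  ring

theorem P18_range (l : List Cell) (h : Dle l) : 0 ≤ val l ∧ val l ≤ 2 := by
  induction l with
  | nil => simp [val]
  | cons a tl ih =>
    have h1 : Dle tl := fun b hb k => h b (List.mem_cons_of_mem _ hb) k
    obtain ⟨h2, h3⟩ := ih h1
    have ha : ∀ k, (a.D k : ℝ) ≤ 4096 := by
      intro k
      have := h a List.mem_cons_self k
      unfold Pool.Agent.Aub.mm at this
      exact_mod_cast this
    have ha0 : ∀ k, (0 : ℝ) ≤ (a.D k : ℝ) := fun k => Nat.cast_nonneg _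
    rw [val, P18_Vz]
    have e0 := ha 0; have e1 := ha 1; have e2 := ha 2
    have f0 := ha0 0; have f1 := ha0 1; have f2 := ha0 2
    constructor
    · apply div_nonneg _ P18_MMpos.le
      positivity
    · rw [div_le_iff₀ P18_MMpos]
      unfold Pool.Agent.Aub.MM
      linarith

theorem vN_val (N : ℕ) (l : List Cell) (h : Dle l) : |vN N l - val l| ≤ 2 / MM ^ N := by
  induction N generalizing l with
  | zero =>
    obtain ⟨h1, h2⟩ := P18_range l h
    rw [vN, pow_zero, div_one, abs_le]
    constructor <;> linarith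
  | succ N ih =>
    have hMM := P18_MMpos
    cases l with
    | nil =>
      have h1 := ih [] h
      have e1 : vN (N + 1) [] = vN N [] / MM := by
        rw [vN, P18_Vz]
        simp [hd, zc]
      rw [e1]
      simp only [val, sub_zero] at h1 ⊢
      rw [abs_div, abs_of_pos hMM, pow_succ, ← div_div]
      exact div_le_div_of_nonneg_right h1 hMM.le
    | cons a tl =>
      have h1 := ih tl (fun b hb k => h b (List.mem_cons_of_mem _ hb) k)
      have e1 : vN (N + 1) (a :: tl) - val (a :: tl) = (vN N tl - val tl) / MM := by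
        rw [vN, val]
        simp only [hd, List.tail_cons]
        ring
      rw [e1, abs_div, abs_of_pos hMM, pow_succ, ← div_div]
      exact div_le_div_of_nonneg_right h1 hMM.le

theorem val_range (l : List Cell) (h : Dle l) : 0 ≤ val l ∧ val l ≤ 2 := by
  exact P18_range l h

theorem good_facts (l : List Cell) (h : Good l) :
    Dle l ∧ (∀ ty, Val ty l) ∧ (∀ N, base N l) := by
  induction l with
  | nil =>
    refine ⟨fun a ha => absurd ha (by simp), fun ty => by rw [Val]; trivial, fun N => ?_⟩
    induction N with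
    | zero => trivial
    | succ N ih => exact ⟨rfl, ih⟩
  | cons a tl ih =>
    obtain ⟨h1, h2, h3⟩ := ih (fun b hb => h b (List.mem_cons_of_mem _ hb))
    obtain ⟨hb, hc, hD⟩ := h a List.mem_cons_self
    refine ⟨?_, ?_, ?_⟩
    · intro b hb' k
      rcases List.mem_cons.mp hb' with rfl | hb'
      · exact (hD k).le
      · exact h1 b hb' k
    · intro ty
      rw [Val]
      refine ⟨fun _ => by rw [hb, hc]; rfl, h2 _⟩
    · intro N
      cases N with
      | zero => trivial
      | succ N => exact ⟨hb, h3 N⟩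

theorem val_dense (t : ℝ) (h0 : 0 ≤ t) (h1 : t ≤ 1) (j : ℕ) :
    ∃ l : List Cell, Good l ∧ |val l - t| ≤ 1 / MM ^ j := by
  induction j generalizing t with
  | zero =>
    refine ⟨[], fun a ha => absurd ha (by simp), ?_⟩
    simp only [val, pow_zero, zero_sub, abs_neg, div_one]
    rw [abs_of_nonneg h0]; exact h1
  | succ j ih =>
    have hMM := P18_MMpos
    obtain ⟨n, hn, hn0, hn1⟩ : ∃ n : ℕ, n < 68719476736 ∧ 0 ≤ t * MM - n ∧ t * MM - n ≤ 1 := by
      have hx0 : 0 ≤ t * MM := mul_nonneg h0 hMM.le
      have hx1 : t * MM ≤ 68719476736 := by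
        have : (MM : ℝ) = 68719476736 := rfl
        rw [this]; nlinarith
      rcases Nat.lt_or_ge ⌊t * MM⌋₊ 68719476736 with h | h
      · refine ⟨⌊t * MM⌋₊, h, ?_, ?_⟩
        · have := Nat.floor_le hx0
          linarith
        · have := (Nat.lt_floor_add_one (t * MM)).le
          linarith
      · have h2 : ((68719476736 : ℕ) : ℝ) ≤ t * MM := (Nat.le_floor_iff hx0).mp h
        refine ⟨68719476735, by norm_num, ?_, ?_⟩
        · push_cast at h2 ⊢; linarith
        · push_cast; linarith
    obtain ⟨l', hl', hv⟩ := ih (t * MM - n) hn0 hn1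
    have hdig : n = 16777216 * (n / 16777216) + 4096 * (n / 4096 % 4096) + n % 4096 := by omega
    refine ⟨⟨false, false, ![n / 16777216, n / 4096 % 4096, n % 4096]⟩ :: l', ?_, ?_⟩
    · intro a ha
      rcases List.mem_cons.mp ha with rfl | ha
      · refine ⟨rfl, rfl, fun k => ?_⟩
        unfold Pool.Agent.Aub.mm
        fin_cases k
        · show n / 16777216 < 4096
          omega
        · show n / 4096 % 4096 < 4096
          omega
        · show n % 4096 < 4096
          omega
      · exact hl' a ha
    · rw [val, P18_Vz]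
      have e1 : (16777216 * (((![n / 16777216, n / 4096 % 4096, n % 4096] : Fin 3 → ℕ) 0 : ℕ) : ℝ) +
          4096 * (((![n / 16777216, n / 4096 % 4096, n % 4096] : Fin 3 → ℕ) 1 : ℕ) : ℝ) +
          (((![n / 16777216, n / 4096 % 4096, n % 4096] : Fin 3 → ℕ) 2 : ℕ) : ℝ)) = n := by
        show (16777216 * ((n / 16777216 : ℕ) : ℝ) + 4096 * ((n / 4096 % 4096 : ℕ) : ℝ) +
          ((n % 4096 : ℕ) : ℝ)) = n
        exact_mod_cast hdig.symm
      rw [e1]
      have e2 : (n + val l') / MM - t = (val l' - (t * MM - n)) / MM := by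
        field_simp; ring
      rw [e2, abs_div, abs_of_pos hMM, pow_succ, ← div_div]
      exact div_le_div_of_nonneg_right hv hMM.le

end Pool.Agent.QA
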