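import Mathlib
import Pool.Agent.Helper961.Aub.Phys
import Pool.Agent.Helper981.QA.ELDefs
import Pool.Agent.Helper981.QA.P08
import Pool.Agent.Helper981.QA.P09
import Pool.Agent.Helper981.QA.P10

/-!
MP_7d4c8f_an, omega limit points are in the Aubry set: bN_omega
-/

set_option autoImplicit false

open Set Filter Topology MeasureTheory
open scoped ContDiff

namespace Pool.Agent.QA

open Pool.Agent.Aub (lat PerField IsFlow action hT Cell zc hd run refill Dle Val base rl Vz MM mm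
  Realz YY Clamp Rho LL Jx EE mkp mkz pt Ty UU)

theorem bN_omega {ι : Type} [Fintype ι] {P : ℝ} (hP : 0 < P)
    {F : EuclideanSpace ℝ ι → EuclideanSpace ℝ ι} (hs : ContDiff ℝ ∞ F) (hF : PerField P F)
    {φ : ℝ → EuclideanSpace ℝ ι → EuclideanSpace ℝ ι} (hφ : IsFlow F φ)
    (x0 x : EuclideanSpace ℝ ι) (n : ℕ → ℕ) (hn : Tendsto n atTop atTop)
    (y : ℕ → EuclideanSpace ℝ ι) (k : ℕ → ι → ℤ)
    (hy : ∀ j, φ (n j) x0 = y j + lat P (k j)) (hx : Tendsto y atTop (𝓝 x)) :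
    bN P F x x = 0 := by
  obtain ⟨K, B, hK0, _, hKL, _, hgr, heq, _⟩ := gen_flow hP hs hF hφ
  have hFc : Continuous F := hs.continuous
  refine le_antisymm ?_ bot_le
  refine ENNReal.le_of_forall_pos_le_add fun ε hε _ => ?_
  rw [zero_add]
  refine Filter.liminf_le_of_frequently_le' ?_
  rw [Filter.frequently_atTop]
  intro a
  have hlim : Tendsto (fun j => (1 + 1 / (1:ℝ)) * (1 + K) ^ 2 * ‖y j - x‖ ^ 2) atTop (𝓝 0) := by
    have h1 : Tendsto (fun j => ‖y j - x‖) atTop (𝓝 0) := by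
      have := (hx.sub_const x).norm
      simpa using this
    have h2 := (h1.pow 2).const_mul ((1 + 1 / (1:ℝ)) * (1 + K) ^ 2)
    simpa using h2
  have hε' : (0:ℝ) < (ε:ℝ) / 2 := by
    have : (0:ℝ) < ε := by exact_mod_cast hε
    linarith
  obtain ⟨i, hi⟩ := (hlim.eventually (gt_mem_nhds hε')).exists
  obtain ⟨j, hj1, hj2⟩ := ((hlim.eventually (gt_mem_nhds hε')).and
    (hn.eventually_ge_atTop (n i + 2 + a))).exists
  refine ⟨n j - n i, by omega, ?_⟩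
  obtain ⟨T, hT⟩ : ∃ T : ℝ, T = ((n j - n i : ℕ) : ℝ) := ⟨_, rfl⟩
  rw [← hT]
  have hT2 : (2:ℝ) ≤ T := by
    rw [hT]
    exact_mod_cast (by omega : 2 ≤ n j - n i)
  have hTn : T + (n i : ℝ) = (n j : ℝ) := by
    rw [hT]
    exact_mod_cast (by omega : n j - n i + n i = n j)
  have hT0 : (0:ℝ) ≤ T := by linarith
  have e1 : φ T (y i) + lat P (k i) = y j + lat P (k j) := by
    rw [← heq, ← hy i, ← hgr, hTn, hy j]
  have z1 := hT_flow P hFc hφ T hT0 (y i)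
  have z2 := hT_lat P hF T hT0 (y i) (φ T (y i)) (k i) (k i)
  have z3 := hT_lat P hF T hT0 (y i) (y j) (k i) (k j)
  rw [e1, z3, z1] at z2
  have z4 := hT_move P hFc K hK0 hKL T hT2 (y i) (y j) x x 1 one_pos
  rw [z2, mul_zero, zero_add] at z4
  refine z4.trans ?_
  have z5 : (1 + 1 / (1:ℝ)) * (1 + K) ^ 2 * (‖y i - x‖ ^ 2 + ‖y j - x‖ ^ 2) ≤ (ε:ℝ) := by
    have : (1 + 1 / (1:ℝ)) * (1 + K) ^ 2 * (‖y i - x‖ ^ 2 + ‖y j - x‖ ^ 2) =
      (1 + 1 / (1:ℝ)) * (1 + K) ^ 2 * ‖y i - x‖ ^ 2 +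
      (1 + 1 / (1:ℝ)) * (1 + K) ^ 2 * ‖y j - x‖ ^ 2 := by ring
    rw [this]
    linarith
  refine (ENNReal.ofReal_le_ofReal z5).trans ?_
  rw [ENNReal.ofReal_coe_nnreal]

end Pool.Agent.QA
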