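import Mathlib
import Pool.Agent.Helper961.Aub.Phys
import Pool.Agent.Helper981.QA.ELDefs
import Pool.Agent.Helper961.Aub.XBase
import Pool.Agent.Helper981.QA.P18

/-!
MP_7d4c8f_an, symbolic recurrence of good configurations: run_good
-/

set_option autoImplicit false

open Set Filter Topology MeasureTheory
open scoped ContDiff

namespace Pool.Agent.QA

open Pool.Agent.Aub (lat PerField IsFlow action hT Cell zc hd run refill Dle Val base rl Vz MM mm
  Realz YY Clamp Rho LL Jx EE mkp mkz pt Ty UU)

section P21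

/-- cell number `i` -/
def P21_cl (l : List Cell) (i : ℕ) : Cell := hd (l.drop i)

theorem P21_cl_succ (l : List Cell) (i : ℕ) : P21_cl l (i + 1) = P21_cl l.tail i := by
  cases l with
  | nil => simp [P21_cl]
  | cons a t => rfl

theorem P21_cl_zero (l : List Cell) : P21_cl l 0 = hd l := rfl

/-- the invariant -/
def P21_P (l₀ l : List Cell) : Prop :=
  ∀ i, (P21_cl l i).D = (P21_cl l₀ i).D ∧ ((P21_cl l i).b = false → (P21_cl l i).c = false)

def P21_Q (l₀ : List Cell) : Prop := ∀ i k, (P21_cl l₀ i).D k < mm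

theorem P21_cons (l₀ l : List Cell) : P21_P l₀ l ↔
    ((hd l).D = (hd l₀).D ∧ ((hd l).b = false → (hd l).c = false)) ∧ P21_P l₀.tail l.tail := by
  constructor
  · intro h
    refine ⟨h 0, fun i => ?_⟩
    rw [← P21_cl_succ, ← P21_cl_succ]
    exact h (i + 1)
  · rintro ⟨h1, h2⟩ i
    cases i with
    | zero => exact h1
    | succ i =>
      rw [P21_cl_succ, P21_cl_succ]
      exact h2 i

theorem P21_Qtail {l₀ : List Cell} (h : P21_Q l₀) : P21_Q l₀.tail := by
  intro i k
  rw [← P21_cl_succ]
  exact h (i + 1) k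

theorem P21_tt (a e : Cell) (he : e.D 0 < mm) : Pool.Agent.Aub.tt a e = 0 := by
  unfold Pool.Agent.Aub.tt
  rw [if_neg]
  rintro ⟨_, h, _⟩
  omega

theorem P21_carry (D : Fin 3 → ℕ) (h : ∀ k, D k < mm) : Pool.Agent.Aub.carry D 0 = D := by
  have h0 := h 0
  have h1 := h 1
  have h2 := h 2
  unfold Pool.Agent.Aub.carry
  rw [if_neg (by omega), if_neg (by omega)]
  funext k
  fin_cases k <;> rfl

theorem P21_newc (a e : Cell) (ha : ∀ k, a.D k < mm) (he : e.D 0 < mm) :
    (Pool.Agent.Aub.newc false a e).D = a.D ∧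
      ((Pool.Agent.Aub.newc false a e).b = false → (Pool.Agent.Aub.newc false a e).c = false) := by
  unfold Pool.Agent.Aub.newc
  constructor
  · simp only [P21_tt a e he]
    exact P21_carry _ ha
  · intro h
    simp only at h ⊢
    rw [h]
    rfl

theorem P21_stE {l₀ l : List Cell} (hQ : P21_Q l₀) (h : P21_P l₀ l) :
    P21_P l₀ (Pool.Agent.Aub.stE false l) := by
  have h0 := (P21_cons _ _).1 h
  have hd0 : ∀ k, (hd l).D k < mm := fun k => by rw [h0.1.1]; exact hQ 0 k
  have h1 := (P21_cons _ _).1 h0.2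
  have hd1 : (hd l.tail).D 0 < mm := by
    rw [h1.1.1]
    exact P21_Qtail hQ 0 0
  cases l with
  | nil =>
    rw [P21_cons]
    have hn := P21_newc zc zc hd0 hd1
    refine ⟨⟨?_, hn.2⟩, h0.2⟩
    show (Pool.Agent.Aub.newc false zc zc).D = _
    rw [hn.1]
    exact h0.1.1
  | cons a tl =>
    have hn := P21_newc a (hd tl) hd0 hd1
    have e : Pool.Agent.Aub.stE false (a :: tl) = Pool.Agent.Aub.newc false a (hd tl) :: tl := by
      show Pool.Agent.Aub.newc false a (hd tl) ::
        (if Pool.Agent.Aub.tt a (hd tl) = 1 then Pool.Agent.Aub.dec tl else tl) = _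
      rw [P21_tt a (hd tl) hd1, if_neg (by norm_num)]
    rw [e, P21_cons]
    refine ⟨⟨?_, hn.2⟩, h0.2⟩
    show (Pool.Agent.Aub.newc false a (hd tl)).D = _
    rw [hn.1]
    exact h0.1.1

theorem P21_stF (l : List Cell) : ∀ l₀ : List Cell, P21_Q l₀ → P21_P l₀ l →
    P21_P l₀ (Pool.Agent.Aub.stF l) := by
  induction l with
  | nil =>
    intro l₀ hQ h
    have h0 := (P21_cons _ _).1 h
    rw [P21_cons]
    exact ⟨h0.1, P21_stE (P21_Qtail hQ) h0.2⟩
  | cons a tl ih =>
    intro l₀ hQ h
    have h0 := (P21_cons _ _).1 h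
    rw [P21_cons]
    refine ⟨h0.1, ?_⟩
    show P21_P l₀.tail (if a.b then Pool.Agent.Aub.stF tl else Pool.Agent.Aub.stE false tl)
    split_ifs
    · exact ih _ (P21_Qtail hQ) h0.2
    · exact P21_stE (P21_Qtail hQ) h0.2

theorem P21_run (n : ℕ) : ∀ (ty : Ty) (l₀ l : List Cell), P21_Q l₀ → P21_P l₀ l →
    P21_P l₀ (run n (fun _ => false) ty l) := by
  induction n with
  | zero => intro ty l₀ l _ h; exact h
  | succ n ih =>
    intro ty l₀ l hQ h
    show P21_P l₀ (run n (fun _ => false) ty.other (Pool.Agent.Aub.st ty false l))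
    apply ih _ _ _ hQ
    cases ty with
    | E => exact P21_stE hQ h
    | F => exact P21_stF l l₀ hQ h

theorem P21_mem (l : List Cell) (i : ℕ) : P21_cl l i = zc ∨ P21_cl l i ∈ l := by
  induction i generalizing l with
  | zero =>
    cases l with
    | nil => exact Or.inl rfl
    | cons a t => exact Or.inr (List.mem_cons_self)
  | succ i ih =>
    rw [P21_cl_succ]
    rcases ih l.tail with h | h
    · exact Or.inl h
    · exact Or.inr (List.mem_of_mem_tail h)

theorem P21_good {l : List Cell} (h : Good l) (i : ℕ) :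
    (P21_cl l i).b = false ∧ (P21_cl l i).c = false ∧ ∀ k, (P21_cl l i).D k < mm := by
  rcases P21_mem l i with hz | hz
  · rw [hz]
    refine ⟨rfl, rfl, fun k => ?_⟩
    show 0 < mm
    unfold mm
    norm_num
  · exact h _ hz

theorem P21_refill (N : ℕ) : ∀ l l' : List Cell, base N l' → P21_P l l' →
    (∀ i, (P21_cl l i).b = false ∧ (P21_cl l i).c = false) → refill N l' = refill N l := by
  induction N with
  | zero => intro l l' _ _ _; rfl
  | succ N ih =>
    intro l l' hb hP hg
    obtain ⟨hb0, hb1⟩ := hb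
    have h0 := (P21_cons _ _).1 hP
    have hgt : ∀ i, (P21_cl l.tail i).b = false ∧ (P21_cl l.tail i).c = false := by
      intro i
      rw [← P21_cl_succ]
      exact hg (i + 1)
    show hd l' :: refill N l'.tail = hd l :: refill N l.tail
    rw [ih _ _ hb1 h0.2 hgt]
    congr 1
    have hl := hg 0
    rw [P21_cl_zero] at hl
    have hc := h0.1.2 hb0
    have hD := h0.1.1
    cases hx : hd l' with
    | mk b c D =>
      cases hy : hd l with
      | mk b' c' D' =>
        rw [hx] at hb0 hc hD
        rw [hy] at hl hD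
        simp only at hb0 hc hD hl
        rw [hb0, hc, hD, hl.1, hl.2]

end P21

theorem run_good (N k : ℕ) (l : List Cell) (h : Good l) :
    refill N (run (2 ^ (N + 1) * k) (fun _ => false) Ty.E l) = refill N l := by
  have hb := Pool.Agent.Aub.run_base N (fun _ => false) Ty.E l k ((good_facts l h).2.2 N)
  have hQ : P21_Q l := fun i k => (P21_good h i).2.2 k
  have hP : P21_P l l := fun i => ⟨rfl, fun _ => (P21_good h i).2.1⟩
  exact P21_refill N l _ hb (P21_run _ _ _ _ hQ hP)
    (fun i => ⟨(P21_good h i).1, (P21_good h i).2.1⟩)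

end Pool.Agent.QA
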