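import Mathlib
import Pool.Agent.Helper961.Aub.Phys
import Pool.Agent.Helper981.QA.ELDefs
import Pool.Agent.Helper961.Aub.XClose

/-!
MP_7d4c8f_an, closeness of exact states: rl_close2 
-/

set_option autoImplicit false

open Set Filter Topology MeasureTheory
open scoped ContDiff

namespace Pool.Agent.QA

open Pool.Agent.Aub (lat PerField IsFlow action hT Cell zc hd run refill Dle Val base rl Vz MM mm
  Realz YY Clamp Rho LL Jx EE mkp mkz pt Ty UU)

theorem rl_close2 (D : ℕ) (l l' : List Cell) (hD : Dle l) (hD' : Dle l')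
    (hb : base (6 * D) l) (hb' : base (6 * D) l') (h : refill (6 * D) l = refill (6 * D) l')
    (i : Fin 3) (tr : Fin 5) :
    |rl Ty.E 1 0 l i tr - rl Ty.E 1 0 l' i tr| ≤ 2 * (mm + 1) / Pool.Agent.Aub.lam ^ D := by
  have h1 := Pool.Agent.Aub.rl_close D l hD hb i tr
  have h2 := Pool.Agent.Aub.rl_close D l' hD' hb' i tr
  rw [h] at h1
  have h3 : 2 * (mm + 1) / Pool.Agent.Aub.lam ^ D =
      (mm + 1) / Pool.Agent.Aub.lam ^ D + (mm + 1) / Pool.Agent.Aub.lam ^ D := by ring
  rw [h3]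
  refine (abs_sub_le _ (rl Ty.E 1 0 (refill (6 * D) l') i tr) _).trans ?_
  rw [abs_sub_comm (rl Ty.E 1 0 (refill (6 * D) l') i tr)]
  exact add_le_add h1 h2

end Pool.Agent.QA
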