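import Mathlib
import Pool.Agent.Helper961.Aub.Phys
import Pool.Agent.Helper981.QA.ELDefs
import Pool.Agent.Helper961.Aub.XRange
import Pool.Agent.Helper961.Aub.ZRun
import Pool.Agent.Helper981.QA.P14
import Pool.Agent.Helper981.QA.P18
import Pool.Agent.Helper981.QA.P21
import Pool.Agent.Helper981.QA.P22

/-!
MP_7d4c8f_an, recurrent exact states: recur
-/

set_option autoImplicit false

open Set Filter Topology MeasureTheory
open scoped ContDiff

namespace Pool.Agent.QA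

open Pool.Agent.Aub (lat PerField IsFlow action hT Cell zc hd run refill Dle Val base rl Vz MM mm
  Realz YY Clamp Rho LL Jx EE mkp mkz pt Ty UU)

theorem P23_base : ∀ (N : ℕ) (l l' : List Cell), refill N l = refill N l' → base N l → base N l'
  | 0, _, _, _, _ => trivial
  | N + 1, l, l', h, hb => by
    simp only [Pool.Agent.Aub.refill, List.cons.injEq] at h
    obtain ⟨h1, h2⟩ := h
    obtain ⟨h3, h4⟩ := hb
    exact ⟨by rw [← h1]; exact h3, P23_base N l.tail l'.tail h2 h4⟩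

theorem P23_tendsto (S : ℕ → Pool.Agent.Aub.Stk) (S0 : Pool.Agent.Aub.Stk) (R : ℕ → Fin 12 → ℝ)
    (R0 : Fin 12 → ℝ) (hS : ∀ i tr, Tendsto (fun j => S j i tr) atTop (𝓝 (S0 i tr)))
    (hR : Tendsto R atTop (𝓝 R0)) :
    Tendsto (fun j => mkp (mkz (S j) (R j)) 0 0) atTop (𝓝 (mkp (mkz S0 R0) 0 0)) := by
  unfold Pool.Agent.Aub.mkp
  refine ((PiLp.continuous_toLp 2 _).tendsto _).comp ?_
  rw [tendsto_pi_nhds]
  rintro ((⟨i, tr⟩ | k) | a)
  · exact hS _ _
  · exact (tendsto_pi_nhds.1 hR) _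
  · exact tendsto_const_nhds

theorem recur (cc : Clamp (5/4)) (cx : Clamp (mm + 1/2)) (rh : Rho) {F : EE → EE}
    {φ : ℝ → EE → EE} (h : Realz 97 (YY cc cx rh) LL F φ) (l : List Cell) (hl : Good l) :
    ∃ R : Fin 12 → ℝ, (∀ k, |R k| ≤ 1/32) ∧ bN LL F (pt l R 0) (pt l R 0) = 0 := by
  classical
  obtain ⟨hD, hv, hb⟩ := good_facts l hl
  have key : ∀ D : ℕ, ∃ (R' : Fin 12 → ℝ) (m : Jx → ℤ), (∀ k, |R' k| ≤ 1/32) ∧
      φ (((2 ^ (6 * D + 1) : ℕ) : ℝ) * LL) (pt l 0 0) =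
        pt (run (6 * 2 ^ (6 * D + 1)) (fun _ => false) Ty.E l) R' 0 + lat LL m ∧
      Dle (run (6 * 2 ^ (6 * D + 1)) (fun _ => false) Ty.E l) := by
    intro D
    obtain ⟨R', m, h1, h2, h3, -⟩ := Pool.Agent.Aub.run_zero cc cx rh h (2 ^ (6 * D + 1)) l hD
      (hv Ty.E) 0 (by intro k; simp)
    exact ⟨R', m, h1, h2, h3⟩
  choose R m hR hφ hDle using key
  have hcomp : IsCompact (Metric.closedBall (0 : Fin 12 → ℝ) (1/32)) := isCompact_closedBall _ _
  have hmem : ∀ D, R D ∈ Metric.closedBall (0 : Fin 12 → ℝ) (1/32) := by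
    intro D
    rw [mem_closedBall_zero_iff, pi_norm_le_iff_of_nonneg (by norm_num)]
    intro k
    rw [Real.norm_eq_abs]
    exact hR D k
  obtain ⟨R0, hR0, θ, hθ, hlim⟩ := hcomp.tendsto_subseq hmem
  refine ⟨R0, ?_, ?_⟩
  · rw [mem_closedBall_zero_iff, pi_norm_le_iff_of_nonneg (by norm_num)] at hR0
    intro k
    rw [← Real.norm_eq_abs]
    exact hR0 k
  · have hclose : ∀ D i tr, |rl Ty.E 1 0 (run (6 * 2 ^ (6 * D + 1)) (fun _ => false) Ty.E l) i tr
        - rl Ty.E 1 0 l i tr| ≤ 2 * (mm + 1) / Pool.Agent.Aub.lam ^ D := by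
      intro D i tr
      have hr := run_good (6 * D) 6 l hl
      rw [mul_comm (2 ^ (6 * D + 1)) 6] at hr
      exact rl_close2 D _ l (hDle D) hD (P23_base (6 * D) _ _ hr.symm (hb _)) (hb _) hr i tr
    have hlam : Tendsto (fun D : ℕ => 2 * ((mm : ℝ) + 1) / Pool.Agent.Aub.lam ^ D) atTop (𝓝 0) := by
      apply tendsto_const_nhds.div_atTop
      apply tendsto_pow_atTop_atTop_of_one_lt
      unfold Pool.Agent.Aub.lam
      norm_num
    have hS : ∀ i tr, Tendsto (fun j => rl Ty.E 1 0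
        (run (6 * 2 ^ (6 * (θ j) + 1)) (fun _ => false) Ty.E l) i tr) atTop
        (𝓝 (rl Ty.E 1 0 l i tr)) := by
      intro i tr
      rw [tendsto_iff_norm_sub_tendsto_zero]
      refine squeeze_zero (fun j => norm_nonneg _) (fun j => ?_) (hlam.comp hθ.tendsto_atTop)
      rw [Real.norm_eq_abs]
      exact hclose (θ j) i tr
    have hn : Tendsto (fun j : ℕ => 2 ^ (6 * (θ j) + 1) * 2 ^ 40) atTop atTop := by
      refine tendsto_atTop_mono (fun j => ?_) hθ.tendsto_atTop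
      have h1 : 6 * (θ j) + 1 < 2 ^ (6 * (θ j) + 1) := Nat.lt_two_pow_self
      have h2 : 2 ^ (6 * (θ j) + 1) ≤ 2 ^ (6 * (θ j) + 1) * 2 ^ 40 :=
        Nat.le_mul_of_pos_right _ (by norm_num)
      exact le_trans (by omega) h2
    refine bN_omega (P := LL) (Fact.out) h.smooth h.per h.flow (pt l 0 0) (pt l R0 0)
      (fun j : ℕ => 2 ^ (6 * (θ j) + 1) * 2 ^ 40) hn
      (fun j => pt (run (6 * 2 ^ (6 * (θ j) + 1)) (fun _ => false) Ty.E l) (R (θ j)) 0)
      (fun j => m (θ j)) ?_ ?_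
    · intro j
      have h1 := hφ (θ j)
      have h2 : ((2 ^ (6 * (θ j) + 1) * 2 ^ 40 : ℕ) : ℝ) = ((2 ^ (6 * (θ j) + 1) : ℕ) : ℝ) * LL := by
        unfold Pool.Agent.Aub.LL
        push_cast
        ring
      rw [h2]
      exact h1
    · exact P23_tendsto _ _ _ _ hS hlim

end Pool.Agent.QA
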