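import Mathlib
import Pool.Agent.Helper961.Aub.Phys
import Pool.Agent.Helper981.QA.ELDefs
import Pool.Agent.Helper961.Aub.XRange
import Pool.Agent.Helper981.QA.P08
import Pool.Agent.Helper981.QA.P13
import Pool.Agent.Helper981.QA.P18
import Pool.Agent.Helper981.QA.P20
import Pool.Agent.Helper981.QA.P23

/-!
MP_7d4c8f_an, the path of Aubry points: path
-/

set_option autoImplicit false

open Set Filter Topology MeasureTheory
open scoped ContDiff

namespace Pool.Agent.QA

open Pool.Agent.Aub (lat PerField IsFlow action hT Cell zc hd run refill Dle Val base rl Vz MM mm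
  Realz YY Clamp Rho LL Jx EE mkp mkz pt Ty UU)

/-- a bound for the norms of the states -/
noncomputable def P24_bd : ℝ := Real.sqrt (∑ _i : Jx, ((mm : ℝ) + 1) ^ 2)

theorem P24_pt_mem (l : List Cell) (hD : Dle l) (R : Fin 12 → ℝ) (hR : ∀ k, |R k| ≤ 1/32) :
    pt l R 0 ∈ Metric.closedBall (0 : EE) P24_bd := by
  have hmm : (0 : ℝ) ≤ mm := by positivity
  rw [mem_closedBall_zero_iff, EuclideanSpace.norm_eq, P24_bd]
  refine Real.sqrt_le_sqrt (Finset.sum_le_sum fun i _ => ?_)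
  have key : ‖(pt l R 0) i‖ ≤ (mm : ℝ) + 1 := by
    rw [Real.norm_eq_abs]
    rcases i with (⟨a, b⟩ | k) | k
    · have h1 := Pool.Agent.Aub.rl_range l hD Ty.E 1 0 a b
      have h2 : (pt l R 0) (Sum.inl (Sum.inl (a, b))) = rl Ty.E 1 0 l a b := rfl
      rw [h2, abs_le]
      constructor <;> linarith [h1.1, h1.2.1]
    · have h2 : (pt l R 0) (Sum.inl (Sum.inr k)) = R k := rfl
      rw [h2]
      linarith [hR k]
    · fin_cases k
      · have h2 : (pt l R 0) (Sum.inr 0) = 0 := rfl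
        show |(pt l R 0) (Sum.inr 0)| ≤ _
        rw [h2, abs_zero]; linarith
      · have h2 : (pt l R 0) (Sum.inr 1) = 0 := rfl
        show |(pt l R 0) (Sum.inr 1)| ≤ _
        rw [h2, abs_zero]; linarith
  exact pow_le_pow_left₀ (norm_nonneg _) key 2

theorem path (cc : Clamp (5/4)) (cx : Clamp (mm + 1/2)) (rh : Rho) {F : EE → EE}
    {φ : ℝ → EE → EE} (h : Realz 97 (YY cc cx rh) LL F φ) :
    ∃ (C : ℝ) (f : Icc (0 : ℝ) 1 → EE), 0 < C ∧ (∀ t, bN LL F (f t) (f t) = 0) ∧
      ∀ s t : Icc (0 : ℝ) 1, ENNReal.ofReal ((t : ℝ) - s) ≤ ENNReal.ofReal C * bN LL F (f s) (f t) := by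
  obtain ⟨C, hC, hlow⟩ := lower2 cc cx rh h
  obtain ⟨K, B, hK0, hB0, hK, -, -, -, -⟩ := gen_flow (P := LL) Fact.out h.smooth h.per h.flow
  have hFc : Continuous F := h.smooth.continuous
  have key : ∀ t : Icc (0 : ℝ) 1, ∃ (a : EE) (l : ℕ → List Cell) (R : ℕ → Fin 12 → ℝ),
      (∀ j, Good (l j) ∧ (∀ k, |R j k| ≤ 1/32) ∧
        bN LL F (pt (l j) (R j) 0) (pt (l j) (R j) 0) = 0) ∧
      Tendsto (fun j => val (l j)) atTop (𝓝 (t : ℝ)) ∧
      Tendsto (fun j => pt (l j) (R j) 0) atTop (𝓝 a) := by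
    intro t
    choose l hl hval using fun j => val_dense t t.2.1 t.2.2 j
    choose R hR hRb using fun j => recur cc cx rh h (l j) (hl j)
    obtain ⟨a, -, ψ, hψ, ha⟩ := tendsto_subseq_of_bounded
      (Metric.isBounded_closedBall (x := (0 : EE)) (r := P24_bd))
      (x := fun j => pt (l j) (R j) 0)
      (fun j => P24_pt_mem (l j) (good_facts _ (hl j)).1 (R j) (hR j))
    refine ⟨a, fun j => l (ψ j), fun j => R (ψ j), fun j => ⟨hl _, hR _, hRb _⟩, ?_, ha⟩
    have h1 : Tendsto (fun j => val (l j)) atTop (𝓝 (t : ℝ)) := by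
      rw [tendsto_iff_dist_tendsto_zero]
      refine squeeze_zero (g := fun j : ℕ => 1 / MM ^ j) (fun _ => dist_nonneg)
        (fun j => by rw [Real.dist_eq]; exact hval j) ?_
      have h2 : Tendsto (fun j : ℕ => (1 / (MM : ℝ)) ^ j) atTop (𝓝 0) := by
        refine tendsto_pow_atTop_nhds_zero_of_lt_one ?_ ?_
        · unfold MM; positivity
        · unfold MM; norm_num
      exact h2.congr fun j => by rw [div_pow, one_pow]
    exact h1.comp hψ.tendsto_atTop
  choose f l R hlR hval hpt using key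
  refine ⟨C, f, hC, ?_, ?_⟩
  · intro t
    have h1 : ∀ j, bN LL F (f t) (f t) ≤ ENNReal.ofReal ((1 + 1 / 1) * (1 + K) ^ 2 *
        (‖pt (l t j) (R t j) 0 - f t‖ ^ 2 + ‖pt (l t j) (R t j) 0 - f t‖ ^ 2)) := by
      intro j
      have h2 := bN_move (P := LL) hFc K hK0 hK (pt (l t j) (R t j) 0) (pt (l t j) (R t j) 0)
        (f t) (f t) 1 one_pos
      rw [(hlR t j).2.2, mul_zero, zero_add] at h2
      exact h2
    have h2 : Tendsto (fun j => ENNReal.ofReal ((1 + 1 / 1) * (1 + K) ^ 2 *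
        (‖pt (l t j) (R t j) 0 - f t‖ ^ 2 + ‖pt (l t j) (R t j) 0 - f t‖ ^ 2))) atTop
        (𝓝 (ENNReal.ofReal 0)) := by
      refine ENNReal.tendsto_ofReal ?_
      have h3 : Tendsto (fun j => ‖pt (l t j) (R t j) 0 - f t‖) atTop (𝓝 0) :=
        tendsto_iff_norm_sub_tendsto_zero.1 (hpt t)
      have h4 := ((h3.pow 2).add (h3.pow 2)).const_mul ((1 + 1 / 1 : ℝ) * (1 + K) ^ 2)
      simpa using h4
    have h3 := ge_of_tendsto' h2 h1
    rw [ENNReal.ofReal_zero] at h3
    exact le_antisymm h3 bot_le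
  · intro s0 t
    have hstep : ∀ j, ENNReal.ofReal (val (l t j) - val (l s0 j)) ≤
        ENNReal.ofReal C * bN LL F (pt (l s0 j) (R s0 j) 0) (pt (l t j) (R t j) 0) := by
      intro j
      have hC0 : ENNReal.ofReal C ≠ 0 := by
        rw [Ne, ENNReal.ofReal_eq_zero, not_le]; exact hC
      rw [← ENNReal.div_le_iff' hC0 ENNReal.ofReal_ne_top]
      unfold bN
      refine le_liminf_of_le (by isBoundedDefault) ?_
      filter_upwards [eventually_ge_atTop 1] with n hn
      rw [ENNReal.div_le_iff' hC0 ENNReal.ofReal_ne_top]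
      obtain ⟨g1, g2, -⟩ := good_facts _ (hlR s0 j).1
      obtain ⟨g1', g2', -⟩ := good_facts _ (hlR t j).1
      exact hlow _ _ g1 g1' (g2 _) (g2' _) _ _ (hlR s0 j).2.1 _ (by exact_mod_cast hn)
    have hs : ∀ s : ℝ, 0 < s → ENNReal.ofReal ((t : ℝ) - s0) ≤
        ENNReal.ofReal C * (ENNReal.ofReal (1 + s) * bN LL F (f s0) (f t)) := by
      intro s hs
      have h1 : Tendsto (fun j => ENNReal.ofReal (val (l t j) - val (l s0 j))) atTop
          (𝓝 (ENNReal.ofReal ((t : ℝ) - s0))) :=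
        ENNReal.tendsto_ofReal ((hval t).sub (hval s0))
      have h2 : Tendsto (fun j => ENNReal.ofReal C * (ENNReal.ofReal (1 + s) * bN LL F (f s0) (f t) +
          ENNReal.ofReal ((1 + 1 / s) * (1 + K) ^ 2 * (‖f s0 - pt (l s0 j) (R s0 j) 0‖ ^ 2 +
            ‖f t - pt (l t j) (R t j) 0‖ ^ 2)))) atTop
          (𝓝 (ENNReal.ofReal C * (ENNReal.ofReal (1 + s) * bN LL F (f s0) (f t) +
            ENNReal.ofReal 0))) := by
        refine ENNReal.Tendsto.const_mul (Tendsto.add tendsto_const_nhds ?_)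
          (Or.inr ENNReal.ofReal_ne_top)
        refine ENNReal.tendsto_ofReal ?_
        have h3 : ∀ t : Icc (0 : ℝ) 1, Tendsto (fun j => ‖f t - pt (l t j) (R t j) 0‖) atTop (𝓝 0) := by
          intro t
          have h4 := tendsto_iff_norm_sub_tendsto_zero.1 (hpt t)
          refine h4.congr fun j => ?_
          rw [norm_sub_rev]
        have h4 := (((h3 s0).pow 2).add ((h3 t).pow 2)).const_mul ((1 + 1 / s : ℝ) * (1 + K) ^ 2)
        simpa using h4
      have h3 := le_of_tendsto_of_tendsto' h1 h2 (fun j => (hstep j).trans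
        (mul_le_mul_right (bN_move (P := LL) hFc K hK0 hK (f s0) (f t) (pt (l s0 j) (R s0 j) 0)
          (pt (l t j) (R t j) 0) s hs) _))
      rwa [ENNReal.ofReal_zero, add_zero] at h3
    have h1 : Tendsto (fun n : ℕ => ENNReal.ofReal C *
        (ENNReal.ofReal (1 + 1 / ((n : ℝ) + 1)) * bN LL F (f s0) (f t))) atTop
        (𝓝 (ENNReal.ofReal C * (ENNReal.ofReal (1 + 0) * bN LL F (f s0) (f t)))) := by
      refine ENNReal.Tendsto.const_mul (ENNReal.Tendsto.mul_const ?_ (Or.inl ?_))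
        (Or.inr ENNReal.ofReal_ne_top)
      · exact ENNReal.tendsto_ofReal (tendsto_one_div_add_atTop_nhds_zero_nat.const_add 1)
      · rw [add_zero, ENNReal.ofReal_one]; exact one_ne_zero
    have h2 := ge_of_tendsto' h1 (fun n => hs _ (by positivity))
    rwa [add_zero, ENNReal.ofReal_one, one_mul] at h2

end Pool.Agent.QA
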