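import Mathlib
import Pool.Agent.Helper961.Aub.XClamp
import Pool.Agent.Helper961.Aub.ZRho
import Pool.Agent.Helper961.Aub.ZSmooth
import Pool.Agent.Helper961.Aub.ZReal
import Pool.Agent.Helper981.QA.P02
import Pool.Agent.Helper981.QA.P05
import Pool.Agent.Helper981.QA.P07
import Pool.Agent.Helper981.QA.P12
import Pool.Agent.Helper981.QA.P15
import Pool.Agent.Helper981.QA.P16
import Pool.Agent.Helper981.QA.P24

set_option autoImplicit false

open Set Filter Topology MeasureTheory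
open scoped ContDiff

namespace Pool.Agent.QA

open Pool.Agent.Aub (lat PerField IsFlow action hT Cell zc hd run refill Dle Val base rl Vz MM mm
  Realz YY Clamp Rho LL Jx EE mkp mkz pt Ty UU clamp_exists rho_exists YY_smooth realize)

theorem path_points {F : EE → EE} {φ : ℝ → EE → EE} (hs : ContDiff ℝ ∞ F) (hF : PerField LL F)
    (hφ : IsFlow F φ) (C : ℝ) (hC : 0 < C) (f : Icc (0 : ℝ) 1 → EE)
    (hA : ∀ t, bN LL F (f t) (f t) = 0)
    (hlow : ∀ s t : Icc (0 : ℝ) 1,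
      ENNReal.ofReal ((t : ℝ) - s) ≤ ENNReal.ofReal C * bN LL F (f s) (f t))
    {X : Type} [MetricSpace X] (π : AubrySet LL (LF LL F) 0 0 → X)
    (hπ : ∀ x y : AubrySet LL (LF LL F) 0 0, ((dist (π x) (π y) : ℝ) : EReal) =
      barrier LL (LF LL F) 0 0 x y + barrier LL (LF LL F) 0 0 y x) :
    1 ≤ dimH (Set.univ : Set X) := by
  have hmem : ∀ t, prj LL (f t) ∈ AubrySet LL (LF LL F) 0 0 := by
    intro t
    show barrier LL (LF LL F) 0 0 (prj LL (f t)) (prj LL (f t)) = 0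
    rw [barrier_eq LL hs hF hφ, hA t]
    rfl
  have key : ∀ s t : Icc (0 : ℝ) 1, (t : ℝ) - s ≤
      C * dist (π ⟨prj LL (f s), hmem s⟩) (π ⟨prj LL (f t), hmem t⟩) := by
    intro s t
    have h1 := hπ ⟨prj LL (f s), hmem s⟩ ⟨prj LL (f t), hmem t⟩
    simp only at h1
    rw [barrier_eq LL hs hF hφ, barrier_eq LL hs hF hφ, ← EReal.coe_ennreal_add] at h1
    set d := dist (π ⟨prj LL (f s), hmem s⟩) (π ⟨prj LL (f t), hmem t⟩) with hd
    have hd0 : 0 ≤ d := dist_nonneg
    have h2 : ((ENNReal.ofReal d : ENNReal) : EReal) = (d : EReal) := by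
      rw [EReal.coe_ennreal_ofReal, max_eq_left hd0]
    rw [← h2] at h1
    have h3 : ENNReal.ofReal d = bN LL F (f s) (f t) + bN LL F (f t) (f s) :=
      EReal.coe_ennreal_injective h1
    have h4 := hlow s t
    have h5 : ENNReal.ofReal ((t : ℝ) - s) ≤ ENNReal.ofReal (C * d) := by
      rw [ENNReal.ofReal_mul hC.le, h3]
      exact h4.trans (mul_le_mul_right le_self_add _)
    exact (ENNReal.ofReal_le_ofReal_iff (mul_nonneg hC.le hd0)).1 h5
  refine dim_of_path (fun t => π ⟨prj LL (f t), hmem t⟩) C hC ?_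
  intro s t
  rw [abs_le]
  constructor
  · have := key s t
    linarith
  · have := key t s
    rw [dist_comm] at this
    exact this

theorem result_aux : ∃ (ι : Type) (_ : Fintype ι) (P : ℝ) (_ : Fact (0 < P)) (L : Phase P ι → ℝ)
    (Φ : ℝ → Phase P ι → Phase P ι) (c : ι → ℝ) (a : ℝ),
    IsTonelli P L ∧ IsELFlow P L Φ ∧ IsAlpha P L Φ c a ∧
    ∃ (X : Type) (_ : MetricSpace X) (π : AubrySet P L c a → X),
      Function.Surjective π ∧
      (∀ x y : AubrySet P L c a, ((dist (π x) (π y) : ℝ) : EReal) =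
        barrier P L c a x y + barrier P L c a y x) ∧
      1 ≤ dimH (Set.univ : Set X) := by
  obtain ⟨cc⟩ := clamp_exists (5/4) (by norm_num) (by norm_num)
  obtain ⟨cx⟩ := clamp_exists (mm + 1/2) (by norm_num [mm]) (by norm_num [mm])
  obtain ⟨rh⟩ := rho_exists
  obtain ⟨hY, hP⟩ := YY_smooth cc cx rh
  obtain ⟨F, φ, h⟩ := realize 97 LL (by norm_num [LL]) (YY cc cx rh) hY hP
  obtain ⟨Φ, hΦ1, hΦ2, hΦ3⟩ := LF_flow LL h.smooth h.per h.flow
  obtain ⟨X, hX, π, hπ1, hπ2⟩ := aubry_space LL h.smooth h.per h.flow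
  obtain ⟨C, f, hC, hA, hlow⟩ := path cc cx rh h
  exact ⟨Jx, inferInstance, LL, inferInstance, LF LL F, Φ, 0, 0,
    ⟨LF_smooth LL h.smooth h.per, LF_hess LL h.per, LF_super LL h.smooth h.per,
      LF_complete LL h.smooth h.per h.flow⟩,
    hΦ1, LF_alpha LL h.smooth h.per h.flow Φ hΦ2 hΦ3,
    X, hX, π, hπ1, hπ2, path_points h.smooth h.per h.flow C hC f hA hlow π hπ2⟩

end Pool.Agent.QA
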